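import Pool.Agent.Helper68.LP.AG

set_option autoImplicit false

/-!
# Convex formulations of the Euclidean travelling salesman problem
-/

namespace Pool.Agent.Helper68.SDP

open Pool.Agent.Helper68.LP Matrix

/-- The set `Q` of vectors solves, up to the additive error `δ`, the Euclidean travelling salesman
problem for `n` labelled cities in `{0, …, R}²`: every tour `σ` is represented by a point `x σ` of
`Q`, and every placement `P` of the cities has an affine objective whose value at every `x σ` is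
the length of the tour `σ` up to `δ`, and whose values on `Q` are at least the length of a shortest
tour minus `δ`. -/
def Solves {d : ℕ} (Q : Set (Fin d → ℝ)) (n R : ℕ) (δ : ℝ) : Prop :=
  ∃ x : Equiv.Perm (Fin n) → Fin d → ℝ, (∀ σ, x σ ∈ Q) ∧
    ∀ P : Fin n → ℤ × ℤ, Function.Injective P → InSquare R P →
      ∃ (c : Fin d → ℝ) (c₀ : ℝ),
        (∀ σ, |(∑ j, c j * x σ j + c₀) - tlen P σ| ≤ δ) ∧
        ∀ y ∈ Q, ∃ σ, tlen P σ - δ ≤ ∑ j, c j * y j + c₀

/-- a polyhedron given by `r` linear inequalities and any number of linear equations -/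
def IsLP {d : ℕ} (Q : Set (Fin d → ℝ)) (r : ℕ) : Prop :=
  ∃ (A : Fin r → Fin d → ℝ) (b : Fin r → ℝ) (s : ℕ) (E : Fin s → Fin d → ℝ) (e : Fin s → ℝ),
    Q = {y | (∀ k, ∑ j, A k j * y j ≤ b k) ∧ ∀ k, ∑ j, E k j * y j = e k}

/-- a spectrahedron given by a linear matrix inequality of size `r` and any number of linear
equations -/
def IsSDP {d : ℕ} (Q : Set (Fin d → ℝ)) (r : ℕ) : Prop :=
  ∃ (B₀ : Matrix (Fin r) (Fin r) ℝ) (B : Fin d → Matrix (Fin r) (Fin r) ℝ) (s : ℕ)
    (E : Fin s → Fin d → ℝ) (e : Fin s → ℝ), B₀.IsHermitian ∧ (∀ j, (B j).IsHermitian) ∧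
    Q = {y | (B₀ + ∑ j, y j • B j).PosSemidef ∧ ∀ k, ∑ j, E k j * y j = e k}

/-- `t` additional cities -/
theorem Solves.restrict {d : ℕ} {Q : Set (Fin d → ℝ)} {n t R R' S : ℕ} {δ δ' : ℝ} (hn : 0 < n)
    (hS : t < S) (hR : S * R + t ≤ R') (hδ : δ' + 2 * t ≤ S * δ) (F : Solves Q (n + t) R' δ') :
    Solves Q n R δ := by
  have hS0 : (0 : ℝ) < S := by
    have : 0 < S := by omega
    exact_mod_cast this
  let i0 : Fin n := ⟨0, hn⟩
  have hsq : ∀ P : Fin n → ℤ × ℤ, InSquare R P → InSquare R' (padded S t i0 P) := by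
    intro P hP i
    have hR' : (S : ℤ) * R + t ≤ R' := by exact_mod_cast hR
    have hS' : (0 : ℤ) ≤ S := by positivity
    have ht' : (0 : ℤ) ≤ t := by positivity
    refine Fin.addCases (fun i => ?_) (fun j => ?_) i
    · unfold padded sc
      simp only [Fin.append_left]
      obtain ⟨h1, h2, h3, h4⟩ := hP i
      exact ⟨mul_nonneg hS' h1, by nlinarith, mul_nonneg hS' h3, by nlinarith⟩
    · unfold padded near sc
      simp only [Fin.append_right]
      obtain ⟨h1, h2, h3, h4⟩ := hP i0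
      have hj : ((j : ℕ) : ℤ) + 1 ≤ t := by
        have := j.2
        exact_mod_cast this
      have hj0 : (0 : ℤ) ≤ ((j : ℕ) : ℤ) + 1 := by positivity
      exact ⟨add_nonneg (mul_nonneg hS' h1) hj0, by nlinarith, mul_nonneg hS' h3, by nlinarith⟩
  choose ins hins using fun σ : Equiv.Perm (Fin n) => exists_insert S t i0 σ
  obtain ⟨x, hx, hP'⟩ := F
  refine ⟨fun σ => x (ins σ), fun σ => hx _, fun P hP hPR => ?_⟩
  obtain ⟨c, c₀, hval, hopt⟩ := hP' _ (padded_injective hS i0 hP) (hsq P hPR)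
  have e : ∀ y : Fin d → ℝ, (∑ j, c j / S * y j + c₀ / S) = (∑ j, c j * y j + c₀) / S := by
    intro y
    rw [add_div, Finset.sum_div]
    congr 1
    exact Finset.sum_congr rfl fun j _ => by ring
  refine ⟨fun j => c j / S, c₀ / S, fun σ => ?_, fun y hy => ?_⟩
  · have h1 := hval (ins σ)
    obtain ⟨h2, h3⟩ := hins σ P
    rw [e]
    rw [abs_le] at h1 ⊢
    constructor
    · rw [le_sub_iff_add_le, le_div_iff₀ hS0]
      have ht' : (0 : ℝ) ≤ t := by positivity
      nlinarith [h1.1]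
    · rw [sub_le_iff_le_add, div_le_iff₀ hS0]
      nlinarith [h1.2]
  · obtain ⟨σ', h1⟩ := hopt y hy
    obtain ⟨σ, h2⟩ := exists_remove S t i0 P σ'
    refine ⟨σ, ?_⟩
    rw [e, le_div_iff₀ hS0]
    have ht' : (0 : ℝ) ≤ t := by positivity
    nlinarith

/-- a linear programming formulation in the sense of the structure `ALP` -/
theorem Solves.toALP {d : ℕ} {Q : Set (Fin d → ℝ)} {n R r : ℕ} {δ : ℝ} (h : IsLP Q r)
    (F : Solves Q n R δ) : Nonempty (ALP n r R δ) := by
  classical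
  obtain ⟨A, b, s, E, e, rfl⟩ := h
  obtain ⟨x, hx, hP⟩ := F
  refine ⟨{
    d := d, s := s, A := A, b := b, E := E, e := e, x := x
    c := fun P => if h : Function.Injective P ∧ InSquare R P then (hP P h.1 h.2).choose else 0
    c0 := fun P => if h : Function.Injective P ∧ InSquare R P then
      (hP P h.1 h.2).choose_spec.choose else 0
    ineq := fun σ k => (hx σ).1 k
    eqn := fun σ k => (hx σ).2 k
    value := ?_
    opt := ?_ }⟩
  · intro P h1 h2 σ
    rw [dif_pos ⟨h1, h2⟩, dif_pos ⟨h1, h2⟩]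
    exact (hP P h1 h2).choose_spec.choose_spec.1 σ
  · intro P h1 h2 y hy1 hy2
    rw [dif_pos ⟨h1, h2⟩, dif_pos ⟨h1, h2⟩]
    exact (hP P h1 h2).choose_spec.choose_spec.2 y ⟨hy1, hy2⟩

end Pool.Agent.Helper68.SDP
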