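import Pool.Agent.Helper68.SDP.Main
import Pool.Agent.Helper68.LP.CnfFam

set_option autoImplicit false

/-!
# Superpolynomial lower bound for semidefinite formulations
-/

namespace Pool.Agent.Helper68.SDP

open Pool.Agent.Helper68.LP (Gadget tlen InSquare cnfGadget cnf_n_le NN_le gp_box NN)

/-- bound of the costs -/
def cbd (t c : ℕ) : ℕ :=
  ((4 * t + 1) * (2 * (2 * t) * c) + 1) * 4 + (4 * t + 1) * (2 * (2 * t) * c)
    + (4 * t + 1) * (4 * t + 1) * (2 * c)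

/-- constant of the scale -/
def A₁ (t c : ℕ) : ℕ := 40010 * cbd t c + 400 * 6561 * 6400 * cbd t c ^ 2 + 1

theorem params (t c N : ℕ) :
    (Q.toGC (cnfGadget ((4 * t + 1) * N)) (2 * t) c (4 * t + 1)).Params
      (80 * ((4 * t + 1) * N + 1) ^ 2) (A₁ t c * ((4 * t + 1) * N + 1) ^ 8) := by
  set G₀ := cnfGadget ((4 * t + 1) * N) with hG₀
  set Y := (4 * t + 1) * N + 1 with hY
  have hY1 : 1 ≤ Y := by omega
  have hC : G₀.C = 4 := rfl
  have hCb : (Q.toGC G₀ (2 * t) c (4 * t + 1)).Cb = cbd t c := by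
    change ((4 * t + 1) * (2 * (2 * t) * c) + 1) * G₀.C + (4 * t + 1) * (2 * (2 * t) * c)
      + (4 * t + 1) * (4 * t + 1) * (2 * c) = _
    rw [hC]; rfl
  have hn : (Q.toGC G₀ (2 * t) c (4 * t + 1)).n ≤ 6561 * Y ^ 4 := cnf_n_le _
  have hB : G₀.B ≤ 2 * G₀.n := Nat.sub_le _ _
  have hK : (Q.toGC G₀ (2 * t) c (4 * t + 1)).K ≤ cbd t c * (13122 * Y ^ 4 + 1) := by
    change ((4 * t + 1) * (2 * (2 * t) * c) + 1) * G₀.B + (4 * t + 1) * (2 * (2 * t) * c) ≤ _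
    have h1 : (4 * t + 1) * (2 * (2 * t) * c) + 1 ≤ cbd t c := by
      unfold cbd
      generalize (4 * t + 1) * (2 * (2 * t) * c) = a
      generalize (4 * t + 1) * (4 * t + 1) * (2 * c) = b
      omega
    have h2 : G₀.B ≤ 13122 * Y ^ 4 := by
      have : G₀.n ≤ 6561 * Y ^ 4 := cnf_n_le _
      omega
    have h3 := Nat.mul_le_mul h1 h2
    have h4 : cbd t c * (13122 * Y ^ 4 + 1) = cbd t c * (13122 * Y ^ 4) + cbd t c := by ring
    omega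
  constructor
  · intro i
    exact ⟨(gp_box _ i).1.trans (NN_le _), (gp_box _ i).2.trans (NN_le _)⟩
  · rw [hCb]
    set cb := cbd t c with hcb
    have p4 : Y ^ 4 ≤ Y ^ 8 := Nat.pow_le_pow_right hY1 (by norm_num)
    have p2 : Y ^ 2 ≤ Y ^ 8 := Nat.pow_le_pow_right hY1 (by norm_num)
    have p0 : 1 ≤ Y ^ 8 := Nat.one_le_pow _ _ hY1
    have h1 : (Q.toGC G₀ (2 * t) c (4 * t + 1)).n * (80 * Y ^ 2 * cb) ^ 2
        ≤ 6561 * 6400 * (cb ^ 2 * Y ^ 8) := by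
      calc (Q.toGC G₀ (2 * t) c (4 * t + 1)).n * (80 * Y ^ 2 * cb) ^ 2
          ≤ (6561 * Y ^ 4) * (80 * Y ^ 2 * cb) ^ 2 := Nat.mul_le_mul_right _ hn
        _ = 6561 * 6400 * (cb ^ 2 * Y ^ 8) := by ring
    have h2 : (Q.toGC G₀ (2 * t) c (4 * t + 1)).K ≤ 13123 * (cb * Y ^ 8) := by
      calc (Q.toGC G₀ (2 * t) c (4 * t + 1)).K ≤ cb * (13122 * Y ^ 4 + 1) := hK
        _ ≤ cb * (13122 * Y ^ 8 + Y ^ 8) := Nat.mul_le_mul_left _ (by omega)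
        _ = 13123 * (cb * Y ^ 8) := by ring
    have h3 : 80 * Y ^ 2 * cb ≤ 80 * (cb * Y ^ 8) := by
      calc 80 * Y ^ 2 * cb ≤ 80 * Y ^ 8 * cb := Nat.mul_le_mul_right _ (Nat.mul_le_mul_left _ p2)
        _ = 80 * (cb * Y ^ 8) := by ring
    have h4 : cb ≤ cb * Y ^ 8 := Nat.le_mul_of_pos_right _ p0
    have h5 : A₁ t c * Y ^ 8 = 40010 * (cb * Y ^ 8) + 400 * 6561 * 6400 * (cb ^ 2 * Y ^ 8)
        + Y ^ 8 := by
      unfold A₁
      rw [← hcb]; ring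
    rw [h5]
    generalize cb ^ 2 * Y ^ 8 = z2 at *
    generalize cb * Y ^ 8 = z1 at *
    generalize (Q.toGC G₀ (2 * t) c (4 * t + 1)).n * (80 * Y ^ 2 * cb) ^ 2 = z3 at *
    omega

theorem A₁_pos (t c : ℕ) : 0 < A₁ t c := by unfold A₁; omega

theorem pad_arith {n S tp RG A₂ R : ℕ} {δ : ℝ} (hδ : 0 ≤ δ) (hn : 1 ≤ n) (hA₂ : 1 ≤ A₂)
    (hnA : 402 * A₂ ≤ n) (hS : (S : ℝ) ≤ 401 * (n + δ)) (htp : tp ≤ n) (hRG : RG ≤ A₂ * n ^ 3)
    (hR : (n + δ) * (n : ℝ) ^ 4 ≤ R) : S * RG + tp ≤ R := by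
  have hn1' : (1 : ℝ) ≤ n := by exact_mod_cast hn
  have h1 : (RG : ℝ) ≤ A₂ * (n : ℝ) ^ 3 := by exact_mod_cast hRG
  have h9 : (S : ℝ) * RG ≤ 401 * (n + δ) * (A₂ * (n : ℝ) ^ 3) :=
    mul_le_mul hS h1 (by positivity) (by positivity)
  have h7 : (1 : ℝ) ≤ (n : ℝ) ^ 3 := one_le_pow₀ hn1'
  have hA₂1' : (1 : ℝ) ≤ A₂ := by exact_mod_cast hA₂
  have h10 : (n : ℝ) ≤ (n + δ) * (A₂ * (n : ℝ) ^ 3) := by
    have : (1 : ℝ) ≤ A₂ * (n : ℝ) ^ 3 := by nlinarith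
    nlinarith
  have h11 : (402 * A₂ : ℝ) ≤ n := by exact_mod_cast hnA
  have h12 : 402 * ((n + δ) * (A₂ * (n : ℝ) ^ 3)) ≤ (n + δ) * (n : ℝ) ^ 4 := by
    have h13 : (n + δ) * (n : ℝ) ^ 3 * (402 * A₂) ≤ (n + δ) * (n : ℝ) ^ 3 * n :=
      mul_le_mul_of_nonneg_left h11 (by positivity)
    calc 402 * ((n + δ) * (A₂ * (n : ℝ) ^ 3)) = (n + δ) * (n : ℝ) ^ 3 * (402 * A₂) := by ring
      _ ≤ (n + δ) * (n : ℝ) ^ 3 * n := h13
      _ = (n + δ) * (n : ℝ) ^ 4 := by ring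
  have htp' : (tp : ℝ) ≤ n := by exact_mod_cast htp
  have h14 : ((S * RG + tp : ℕ) : ℝ) ≤ R := by
    push_cast
    linarith
  exact_mod_cast h14

/-- the size of the square of the gadget -/
theorem RG_le {A₁' A A₂ m Y N n : ℕ} (hY : Y ≤ (m + 1) * N) (hA0 : 0 < A) (hN1 : 1 ≤ N)
    (hN4 : A * N ^ 4 ≤ n) (hA₂ : A₂ = 160 * A₁' * (m + 1) ^ 10) :
    2 * (A₁' * Y ^ 8 * (80 * Y ^ 2)) ≤ A₂ * n ^ 3 := by
  calc 2 * (A₁' * Y ^ 8 * (80 * Y ^ 2)) = 160 * A₁' * Y ^ 10 := by ring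
    _ ≤ 160 * A₁' * ((m + 1) * N) ^ 10 := Nat.mul_le_mul_left _ (Nat.pow_le_pow_left hY 10)
    _ = A₂ * N ^ 10 := by rw [hA₂]; ring
    _ ≤ A₂ * n ^ 3 := by
        apply Nat.mul_le_mul_left
        calc N ^ 10 ≤ N ^ 12 := Nat.pow_le_pow_right hN1 (by norm_num)
          _ = (N ^ 4) ^ 3 := by ring
          _ ≤ n ^ 3 := by
              apply Nat.pow_le_pow_left
              calc N ^ 4 = 1 * N ^ 4 := (one_mul _).symm
                _ ≤ A * N ^ 4 := Nat.mul_le_mul_right _ hA0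
                _ ≤ n := hN4

/-- the asymptotics -/
theorem asym {k t n r N : ℕ} (ht : t + 1 = 4 * (4 * k + 4)) {A c₀ x : ℝ} (hA : 0 < A)
    (hc₀ : 0 < c₀) (hx0 : 0 ≤ x) (hx4 : x ^ 4 = (n : ℝ) / A) (hNx2 : x / 2 ≤ N)
    (hn1' : (1 : ℝ) ≤ n)
    (hnL : (1 + k * ((t : ℝ) + 1)) ^ (t + 1) / (c₀ / (A ^ (4 * k + 4) * 2 ^ (t + 1))) < n)
    (hfin : c₀ * (N : ℝ) ^ (t + 1)
      ≤ ((r : ℝ) + 1) ^ 4 * (1 + Real.log ((r : ℝ) + 1)) ^ (t + 1)) : n ^ k ≤ r := by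
  have hn0' : (0 : ℝ) < n := by linarith
  set c' : ℝ := c₀ / (A ^ (4 * k + 4) * 2 ^ (t + 1)) with hc'
  have hc'0 : 0 < c' := by positivity
  set L : ℝ := (1 + k * ((t : ℝ) + 1)) ^ (t + 1) with hL
  have hL0 : 0 < L := by positivity
  by_contra hlt
  push Not at hlt
  have hr1 : (r : ℝ) + 1 ≤ (n : ℝ) ^ k := by exact_mod_cast hlt
  have hlog : Real.log ((r : ℝ) + 1) ≤ k * Real.log n := by
    rw [← Real.log_pow]
    exact Real.log_le_log (by positivity) hr1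
  have hlog0 : 0 ≤ Real.log ((r : ℝ) + 1) := Real.log_nonneg (by
    have : (0 : ℝ) ≤ r := by positivity
    linarith)
  have h1 : (c₀ : ℝ) * (x / 2) ^ (t + 1) ≤ ((n : ℝ) ^ k) ^ 4 * (L * n) := by
    calc c₀ * (x / 2) ^ (t + 1) ≤ c₀ * (N : ℝ) ^ (t + 1) := by gcongr
      _ ≤ ((r : ℝ) + 1) ^ 4 * (1 + Real.log ((r : ℝ) + 1)) ^ (t + 1) := hfin
      _ ≤ ((n : ℝ) ^ k) ^ 4 * (L * n) := by
          have h2 : (1 + Real.log ((r : ℝ) + 1)) ^ (t + 1) ≤ L * n := by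
            have ht1 : (0 : ℝ) < (t : ℝ) + 1 := by positivity
            have h3 : Real.log n ≤ (n : ℝ) ^ (1 / ((t : ℝ) + 1)) / (1 / ((t : ℝ) + 1)) :=
              Real.log_le_rpow_div hn0'.le (by positivity)
            have h4 : 1 ≤ (n : ℝ) ^ (1 / ((t : ℝ) + 1)) :=
              Real.one_le_rpow hn1' (by positivity)
            set u : ℝ := (n : ℝ) ^ (1 / ((t : ℝ) + 1)) with hu
            have hu1 : u ^ (t + 1) = n := by
              rw [hu, ← Real.rpow_natCast, ← Real.rpow_mul hn0'.le]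
              push_cast
              rw [one_div, inv_mul_cancel₀ ht1.ne', Real.rpow_one]
            have h5 : 1 + Real.log ((r : ℝ) + 1) ≤ (1 + k * ((t : ℝ) + 1)) * u := by
              have h6 : u / (1 / ((t : ℝ) + 1)) = u * ((t : ℝ) + 1) := by field_simp
              rw [h6] at h3
              have h7 : (k : ℝ) * Real.log n ≤ k * (u * ((t : ℝ) + 1)) :=
                mul_le_mul_of_nonneg_left h3 (by positivity)
              linarith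
            calc (1 + Real.log ((r : ℝ) + 1)) ^ (t + 1)
                ≤ ((1 + k * ((t : ℝ) + 1)) * u) ^ (t + 1) :=
                  pow_le_pow_left₀ (by linarith) h5 _
              _ = L * n := by rw [mul_pow, hu1, hL]
          gcongr
  have h2 : (x / 2) ^ (t + 1) = ((n : ℝ) / A) ^ (4 * k + 4) / 2 ^ (t + 1) := by
    have e : x ^ (t + 1) = (x ^ 4) ^ (4 * k + 4) := by rw [← pow_mul, ht]
    rw [div_pow, e, hx4]
  rw [h2] at h1
  have h3 : c' * (n : ℝ) ^ (4 * k + 4) ≤ (n : ℝ) ^ (4 * k) * (L * n) := by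
    have e1 : c' * (n : ℝ) ^ (4 * k + 4) = c₀ * (((n : ℝ) / A) ^ (4 * k + 4) / 2 ^ (t + 1)) := by
      rw [hc', div_pow]; field_simp
    have e2 : ((n : ℝ) ^ k) ^ 4 = (n : ℝ) ^ (4 * k) := by rw [← pow_mul]; congr 1; ring
    rw [e1, ← e2]
    exact h1
  have h4 : c' * (n : ℝ) ^ 3 ≤ L := by
    have e1 : c' * (n : ℝ) ^ (4 * k + 4) = (n : ℝ) ^ (4 * k) * n * (c' * (n : ℝ) ^ 3) := by ring
    have e2 : (n : ℝ) ^ (4 * k) * (L * n) = (n : ℝ) ^ (4 * k) * n * L := by ring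
    rw [e1, e2] at h3
    exact le_of_mul_le_mul_left h3 (by positivity)
  have h5 : c' * n ≤ c' * (n : ℝ) ^ 3 := by
    apply mul_le_mul_of_nonneg_left _ hc'0.le
    calc (n : ℝ) = n ^ 1 := (pow_one _).symm
      _ ≤ (n : ℝ) ^ 3 := pow_le_pow_right₀ hn1' (by norm_num)
  rw [div_lt_iff₀ hc'0] at hnL
  linarith


/-- Superpolynomial lower bound: for every `k` and all large `n`, a semidefinite formulation of
the Euclidean travelling salesman problem on `n` cities has size at least `n ^ k`. -/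
theorem sdp_main (k : ℕ) : ∃ n₀ : ℕ, ∀ n : ℕ, n₀ ≤ n → ∀ (R : ℕ) (δ : ℝ), 0 ≤ δ →
    (n + δ) * (n : ℝ) ^ 4 ≤ R → ∀ (d r : ℕ) (Q : Set (Fin d → ℝ)), IsSDP Q r →
    Solves Q n R δ → n ^ k ≤ r := by
  set t : ℕ := 16 * k + 15 with ht
  obtain ⟨c, c₀, hc₀, hgad⟩ := one_gadget t (by omega)
  set m : ℕ := 4 * t + 1 with hm
  set A : ℕ := 6561 * (m + 1) ^ 4 with hA
  set A₂ : ℕ := 160 * A₁ t c * (m + 1) ^ 10 with hA₂
  have hA0 : 0 < A := by positivity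
  have hA0' : (0 : ℝ) < A := by exact_mod_cast hA0
  set c' : ℝ := c₀ / ((A : ℝ) ^ (4 * k + 4) * 2 ^ (t + 1)) with hc'
  have hc'0 : 0 < c' := by positivity
  set L : ℝ := (1 + k * ((t : ℝ) + 1)) ^ (t + 1) with hL
  have hL0 : 0 < L := by positivity
  refine ⟨16 * A + 402 * A₂ + ⌈L / c'⌉₊ + 2, fun n hn R δ hδ hR d r Q hQ hsol => ?_⟩
  have hn16 : 16 * A ≤ n := by omega
  have hnA₂ : 402 * A₂ ≤ n := by omega
  have hn1 : 2 ≤ n := by omega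
  have hn1' : (1 : ℝ) ≤ n := by exact_mod_cast (by omega : 1 ≤ n)
  have hn0' : (0 : ℝ) < n := by linarith
  have hnL : L / c' < n := by
    have h1 : L / c' ≤ ⌈L / c'⌉₊ := Nat.le_ceil _
    have h2 : ((⌈L / c'⌉₊ + 2 : ℕ) : ℝ) ≤ n := by
      exact_mod_cast (by omega : ⌈L / c'⌉₊ + 2 ≤ n)
    push_cast at h2
    linarith
  -- the number of columns
  set x : ℝ := ((n : ℝ) / A) ^ (1 / 4 : ℝ) with hx
  have hx0 : 0 ≤ x := by positivity
  have hx4 : x ^ 4 = (n : ℝ) / A := by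
    rw [hx, ← Real.rpow_natCast, ← Real.rpow_mul (by positivity)]
    norm_num
  have hx2 : 2 ≤ x := by
    have h1 : (16 : ℝ) ≤ x ^ 4 := by
      rw [hx4, le_div_iff₀ hA0']
      exact_mod_cast hn16
    by_contra h
    push Not at h
    have : x ^ 4 < 2 ^ 4 := pow_lt_pow_left₀ h hx0 (by norm_num)
    norm_num at this
    linarith
  set N : ℕ := ⌊x⌋₊ with hN
  have hNx : (N : ℝ) ≤ x := Nat.floor_le hx0
  have hNx2 : x / 2 ≤ N := by
    have := Nat.lt_floor_add_one x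
    rw [← hN] at this
    linarith
  have hN1 : 1 ≤ N := Nat.le_floor (by push_cast; linarith)
  have hN4 : A * N ^ 4 ≤ n := by
    have h1 : (A : ℝ) * (N : ℝ) ^ 4 ≤ n := by
      have h2 : (N : ℝ) ^ 4 ≤ x ^ 4 := pow_le_pow_left₀ (by positivity) hNx 4
      rw [hx4, le_div_iff₀ hA0'] at h2
      linarith
    exact_mod_cast h1
  set G₀ := cnfGadget ((4 * t + 1) * N) with hG₀
  have hY : (4 * t + 1) * N + 1 ≤ (m + 1) * N := by
    rw [← hm]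
    calc m * N + 1 ≤ m * N + N := by omega
      _ = (m + 1) * N := by ring
  have hG₀n : G₀.n ≤ n := by
    calc G₀.n ≤ 6561 * ((4 * t + 1) * N + 1) ^ 4 := cnf_n_le _
      _ ≤ 6561 * ((m + 1) * N) ^ 4 := Nat.mul_le_mul_left _ (Nat.pow_le_pow_left hY 4)
      _ = A * N ^ 4 := by rw [hA]; ring
      _ ≤ n := hN4
  obtain ⟨tp, htp⟩ : ∃ tp, n = G₀.n + tp := ⟨n - G₀.n, by omega⟩
  set S : ℕ := 100 * ⌈δ⌉₊ + 200 * n + 1 with hS
  have hceil : (⌈δ⌉₊ : ℝ) ≤ δ + 1 := (Nat.ceil_lt_add_one hδ).le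
  have hceil2 : δ ≤ (⌈δ⌉₊ : ℝ) := Nat.le_ceil δ
  have htpn : tp ≤ n := by omega
  have htpn' : (tp : ℝ) ≤ n := by exact_mod_cast htpn
  -- the size of the square
  have hRG : 2 * (A₁ t c * ((4 * t + 1) * N + 1) ^ 8 * (80 * ((4 * t + 1) * N + 1) ^ 2))
      ≤ A₂ * n ^ 3 := RG_le hY hA0 hN1 hN4 hA₂
  have hA₂1 : 1 ≤ A₂ := by
    rw [hA₂]
    exact Nat.mul_pos (Nat.mul_pos (by norm_num) (A₁_pos t c)) (by positivity)
  have h5 : (S : ℝ) ≤ 401 * (n + δ) := by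
    rw [hS]; push_cast
    linarith
  have hSR := pad_arith hδ (by omega) hA₂1 hnA₂ h5 htpn hRG hR
  have hSt : tp < S := by omega
  have hSδ : δ + 2 * tp ≤ S * (1 / 100 : ℝ) := by
    rw [hS]; push_cast
    linarith
  have hsol' : Solves Q (G₀.n + tp) R δ := by rw [← htp]; exact hsol
  have hsol2 := hsol'.restrict (by have := G₀.hn; omega) hSt hSR hSδ
  have hfin := hgad N hN1 G₀ _ _ (params t c N) d r Q hQ (1 / 100) le_rfl hsol2
  exact asym (by omega) hA0' hc₀ hx0 hx4 hNx2 hn1' (by rw [← hc', ← hL]; exact hnL) hfin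

end Pool.Agent.Helper68.SDP
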