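import Mathlib

set_option autoImplicit false

/-!
# Traces of products of positive semidefinite matrices
-/

namespace Pool.Agent.Helper68.SDP

open Matrix Finset

open scoped MatrixOrder in
/-- factorization of a positive semidefinite matrix -/
theorem psd_factor {r : ℕ} {P : Matrix (Fin r) (Fin r) ℝ} (hP : P.PosSemidef) :
    ∃ V : Matrix (Fin r) (Fin r) ℝ, P = Vᵀ * V := by
  obtain ⟨V, hV⟩ := CStarAlgebra.nonneg_iff_eq_star_mul_self.mp hP.nonneg
  refine ⟨V, ?_⟩
  rw [hV, star_eq_conjTranspose, conjTranspose_eq_transpose_of_trivial]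

theorem psd_transpose_mul {r s : ℕ} (V : Matrix (Fin s) (Fin r) ℝ) : (Vᵀ * V).PosSemidef := by
  have := posSemidef_conjTranspose_mul_self V
  rwa [conjTranspose_eq_transpose_of_trivial] at this

/-- squared norm of a matrix -/
def nsq {r s : ℕ} (V : Matrix (Fin r) (Fin s) ℝ) : ℝ := ∑ i, ∑ j, V i j ^ 2

theorem trace_transpose_mul {r s : ℕ} (V : Matrix (Fin r) (Fin s) ℝ) :
    (Vᵀ * V).trace = nsq V := by
  unfold nsq
  simp only [trace, diag_apply, mul_apply, transpose_apply]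
  rw [sum_comm]
  exact sum_congr rfl fun i _ => sum_congr rfl fun j _ => (pow_two _).symm

theorem trace_mul_transpose {r s : ℕ} (V : Matrix (Fin r) (Fin s) ℝ) :
    (V * Vᵀ).trace = nsq V := by
  rw [trace_mul_comm, trace_transpose_mul]

theorem nsq_nonneg {r s : ℕ} (V : Matrix (Fin r) (Fin s) ℝ) : 0 ≤ nsq V :=
  sum_nonneg fun _ _ => sum_nonneg fun _ _ => sq_nonneg _

theorem trace_three {r s : ℕ} (V : Matrix (Fin r) (Fin r) ℝ) (R : Matrix (Fin r) (Fin s) ℝ) :
    (Vᵀ * V * (R * Rᵀ)).trace = nsq (V * R) := by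
  rw [← trace_mul_transpose, transpose_mul, Matrix.mul_assoc, Matrix.mul_assoc,
    trace_mul_comm, Matrix.mul_assoc, Matrix.mul_assoc]

/-- the trace of the product of two positive semidefinite matrices is nonnegative -/
theorem trace_mul_nonneg {r : ℕ} {P Q : Matrix (Fin r) (Fin r) ℝ} (hP : P.PosSemidef)
    (hQ : Q.PosSemidef) : 0 ≤ (P * Q).trace := by
  obtain ⟨V, rfl⟩ := psd_factor hP
  obtain ⟨U, rfl⟩ := psd_factor hQ
  have := trace_three V Uᵀ
  rw [transpose_transpose] at this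
  rw [this]
  exact nsq_nonneg _

theorem trace_mul_le {r : ℕ} {P Q : Matrix (Fin r) (Fin r) ℝ} {c : ℝ}
    (hP : (c • (1 : Matrix (Fin r) (Fin r) ℝ) - P).PosSemidef) (hQ : Q.PosSemidef) :
    (P * Q).trace ≤ c * Q.trace := by
  have := trace_mul_nonneg hP hQ
  rw [Matrix.sub_mul, trace_sub, smul_mul_assoc, Matrix.one_mul, trace_smul, smul_eq_mul] at this
  linarith

theorem psd_pow {r : ℕ} {A : Matrix (Fin r) (Fin r) ℝ} (hA : A.PosSemidef) (j : ℕ) :
    (A ^ j).PosSemidef := hA.pow j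

end Pool.Agent.Helper68.SDP
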