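import Pool.Agent.Helper68.LP.AG

set_option autoImplicit false

/-!
# Tours of a gadget with general quadratic costs
-/

namespace Pool.Agent.Helper68.SDP

open Pool.Agent.Helper68.LP

/-- Lattice points and, for every objective `b`, integer costs of the unit edges of the lattice,
such that the tour `a` has cost `O b + V a b` and every tour has cost at least `O b`; a step which
is not a unit edge costs `K`. -/
structure GC (α β : Type) (V : α → β → ℤ) where
  n : ℕ
  hn : 3 ≤ n
  p : Fin n → ℕ × ℕ
  hp : Function.Injective p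
  h : β → ℕ → ℕ → ℤ
  v : β → ℕ → ℕ → ℤ
  Cb : ℕ
  hC : ∀ b x y, |h b x y| ≤ Cb
  vC : ∀ b x y, |v b x y| ≤ Cb
  K : ℕ
  O : β → ℤ
  low : ∀ b σ, O b ≤ tcost (h b) (v b) K p σ
  tour : α → Equiv.Perm (Fin n)
  unit : ∀ a, UnitTour p (tour a)
  val : ∀ a b, tcost (h b) (v b) K p (tour a) = O b + V a b

namespace GC

variable {α β : Type} {V : α → β → ℤ} (G : GC α β V)

/-- the parameters of the instances: box `N`, scale `M` -/
structure Params (N M : ℕ) : Prop where
  box : ∀ i, (G.p i).1 ≤ N ∧ (G.p i).2 ≤ N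
  big : 3 * G.K + 8 * (N * G.Cb) + G.Cb + 400 * (G.n * (N * G.Cb) ^ 2) + 1 ≤ M

theorem bx (b : β) (N : ℕ) : Box (G.h b) (G.v b) N G.Cb := ⟨G.hC b, G.vC b⟩

/-- the instance of the objective `b` -/
def inst (M : ℕ) (b : β) : Fin G.n → ℤ × ℤ := fun i => pert (G.h b) (G.v b) M (G.p i)

variable {G}

theorem Params.inj {N M : ℕ} (h : G.Params N M) (b : β) :
    Function.Injective (G.inst M b) := by
  apply pert_injective (G.bx b N) G.p G.hp h.box
  · have := h.big
    have : G.Cb < M := by omega
    exact_mod_cast this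
  · have := h.big
    have : 8 * (N * G.Cb) ≤ M := by omega
    exact_mod_cast this

theorem Params.square {N M : ℕ} (h : G.Params N M) (b : β) :
    InSquare (2 * (M * N)) (G.inst M b) := by
  intro i
  obtain ⟨h1, h2⟩ := h.box i
  have hB := G.bx b N
  have b1 : ∀ (f : ℕ → ℤ) (x : ℕ), (∀ j, |f j| ≤ G.Cb) →
      |∑ j ∈ Finset.range x, f j| ≤ (M : ℤ) * x := by
    intro f x hf
    have h3 := sum_bound (N := x) hf le_rfl
    refine h3.trans ?_
    have := h.big
    have h4 : x * G.Cb ≤ M * x := by
      rw [mul_comm]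
      exact Nat.mul_le_mul_right x (by omega)
    exact_mod_cast h4
  have c1 := abs_le.mp (b1 (fun i' => G.h b i' (G.p i).2) (G.p i).1 fun j => hB.hh _ _)
  have c2 := abs_le.mp (b1 (fun i' => G.v b (G.p i).1 i') (G.p i).2 fun j => hB.hv _ _)
  have d1 : (M : ℤ) * (G.p i).1 ≤ M * N := by
    exact_mod_cast Nat.mul_le_mul_left M h1
  have d2 : (M : ℤ) * (G.p i).2 ≤ M * N := by
    exact_mod_cast Nat.mul_le_mul_left M h2
  unfold inst pert
  simp only
  push_cast
  refine ⟨?_, ?_, ?_, ?_⟩ <;> linarith [c1.1, c1.2, c2.1, c2.2]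

theorem Params.low {N M : ℕ} (h : G.Params N M) (b : β)
    (σ : Equiv.Perm (Fin G.n)) : (G.n : ℝ) * M + G.O b ≤ tlen (G.inst M b) σ := by
  have h1 := tcost_le_tlen (M := (M : ℤ)) (K := (G.K : ℤ)) (G.bx b N)
    (by have := G.hn; omega) G.p G.hp h.box (by positivity)
    (by
      have := h.big
      have : 3 * G.K + 8 * (N * G.Cb) ≤ M := by omega
      exact_mod_cast this) σ
  have h3 : (G.O b : ℝ) ≤ (tcost (G.h b) (G.v b) G.K G.p σ : ℤ) := by
    exact_mod_cast G.low b σ
  unfold inst
  push_cast at h1 ⊢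
  linarith

theorem Params.err {N M : ℕ} (h : G.Params N M) :
    (G.n : ℝ) * ((2 * (N * G.Cb : ℕ)) ^ 2 / (2 * ((M : ℝ) - G.Cb))) ≤ 1 / 200 := by
  have h1 : (400 * (G.n * (N * G.Cb) ^ 2) + 1 + G.Cb : ℕ) ≤ (M : ℝ) := by
    have := h.big
    exact_mod_cast (by omega : 400 * (G.n * (N * G.Cb) ^ 2) + 1 + G.Cb ≤ M)
  push_cast at h1
  have h2 : (0 : ℝ) < (M : ℝ) - G.Cb := by
    have : (0 : ℝ) ≤ 400 * (G.n * (N * G.Cb) ^ 2) := by positivity
    linarith
  rw [← mul_div_assoc, div_le_iff₀ (by positivity)]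
  push_cast
  nlinarith

/-- the length of the tour `a` in the instance of the objective `b` -/
theorem Params.mid {N M : ℕ} (h : G.Params N M) (a : α) (b : β) :
    (G.n : ℝ) * M + G.O b + V a b ≤ tlen (G.inst M b) (G.tour a) ∧
      tlen (G.inst M b) (G.tour a) ≤ (G.n : ℝ) * M + G.O b + V a b + 1 / 200 := by
  have e' : (tcost (G.h b) (G.v b) G.K G.p (G.tour a) : ℝ) = G.O b + V a b := by
    exact_mod_cast G.val a b
  constructor
  · have h1 := tcost_le_tlen (M := (M : ℤ)) (K := (G.K : ℤ)) (G.bx b N)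
      (by have := G.hn; omega) G.p G.hp h.box (by positivity)
      (by
        have := h.big
        have : 3 * G.K + 8 * (N * G.Cb) ≤ M := by omega
        exact_mod_cast this) (G.tour a)
    rw [e'] at h1
    unfold inst
    push_cast at h1 ⊢
    linarith
  · have h1 := tlen_le_tcost (M := (M : ℤ)) (K := (G.K : ℤ)) (G.bx b N)
      G.p h.box (by
        have := h.big
        have : G.Cb < M := by omega
        exact_mod_cast this) (G.tour a) (G.unit a)
    rw [e'] at h1
    have h2 := h.err
    unfold inst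
    push_cast at h1 h2 ⊢
    linarith

end GC

/-! ### General quadratic costs on a gadget with special edges -/

namespace Q

variable {m : ℕ} (G : Gadget m) (A B K₀ : ℕ)

/-- extra cost of the vertical edge above `(x, y)` for the set `b` -/
def extra (b : Fin m → Bool) (x y : ℕ) : ℤ :=
  (∑ i, if b i = true ∧ G.ea i = (x, y) then (-A : ℤ) else 0)
    + ∑ i, ∑ j, if (i < j ∧ b i = true ∧ b j = true) ∧ G.ey i j = (x, y) then (B : ℤ) else 0

/-- horizontal costs -/
def hh (x y : ℕ) : ℤ := (K₀ : ℤ) * G.h x y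

/-- vertical costs -/
def vv (b : Fin m → Bool) (x y : ℕ) : ℤ := (K₀ : ℤ) * G.v x y + extra G A B b x y

/-- extra cost of a pair -/
def ext (b : Fin m → Bool) (p q : ℕ × ℕ) : ℤ :=
  (∑ i, if b i = true then -(A * ind (G.ea i) p q : ℤ) else 0)
    + ∑ i, ∑ j, if i < j ∧ b i = true ∧ b j = true then B * (ind (G.ey i j) p q : ℤ) else 0

theorem ucost_eq (b : Fin m → Bool) (K : ℤ) {p q : ℕ × ℕ} (hn : Nb p q) :
    ucost (hh G K₀) (vv G A B K₀ b) K p q
      = (K₀ : ℤ) * ncost G.h G.v p q + ext G A B b p q := by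
  have hor : ∀ p q : ℕ × ℕ, q.2 = p.2 → ext G A B b p q = 0 := by
    intro p q hpq
    have hi : ∀ e, ind e p q = 0 := by
      intro e
      unfold ind
      rw [if_neg]
      rintro (⟨h1, h2⟩ | ⟨h1, h2⟩) <;> rw [h1, h2] at hpq <;> simp at hpq
    unfold ext
    simp [hi]
  have ver : ∀ x y : ℕ, ext G A B b (x, y) (x, y + 1) = extra G A B b x y := by
    intro x y
    have hi : ∀ e : ℕ × ℕ, ind e (x, y) (x, y + 1) = if e = (x, y) then 1 else 0 := by
      intro e
      unfold ind
      by_cases he : e = (x, y)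
      · subst he; simp
      · rw [if_neg he, if_neg]
        rintro (⟨h1, h2⟩ | ⟨h1, h2⟩)
        · exact he h1.symm
        · rw [← h1] at h2
          have := congrArg Prod.snd h2
          simp only at this
          omega
    unfold ext extra
    simp only [hi]
    congr 1
    · refine Finset.sum_congr rfl fun i _ => ?_
      by_cases h1 : b i = true <;> by_cases h2 : G.ea i = (x, y) <;> simp [h1, h2]
    · refine Finset.sum_congr rfl fun i _ => Finset.sum_congr rfl fun j _ => ?_
      by_cases h1 : i < j ∧ b i = true ∧ b j = true <;> by_cases h2 : G.ey i j = (x, y) <;>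
        simp [h1, h2]
  have indc : ∀ e p q, ind e p q = ind e q p := by
    intro e p q
    unfold ind
    congr 1
    exact propext Or.comm
  have extc : ∀ p q, ext G A B b p q = ext G A B b q p := by
    intro p q
    unfold ext
    simp only [indc _ p q]
  obtain ⟨x, y⟩ := p
  obtain ⟨x', y'⟩ := q
  unfold Nb at hn
  simp only at hn
  rcases hn with ⟨h1, h2⟩ | ⟨h1, h2⟩ | ⟨h1, h2⟩ | ⟨h1, h2⟩
  · subst h1; subst h2
    rw [hor (x, y') (x + 1, y') rfl]
    simp [ucost, ncost, hh]
  · subst h1; subst h2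
    rw [hor (x' + 1, y') (x', y') rfl]
    have e1 : ¬ (x' = x' + 1 + 1 ∧ y' = y') := by omega
    simp [ucost, ncost, hh]
  · subst h1; subst h2
    rw [ver]
    simp [ucost, ncost, vv]
  · subst h1; subst h2
    rw [extc, ver]
    have e1 : ¬ (y' = y' + 1 + 1) := by omega
    simp [ucost, ncost, vv, e1]

/-- number of elements of `b` whose edge is used -/
theorem sum_ext (b : Fin m → Bool) (σ : Equiv.Perm (Fin G.n)) :
    ∑ i, ext G A B b (G.p (σ i)) (G.p (σ (finRotate G.n i)))
      = (∑ i, if b i = true then -(A * cntE G.p σ (G.ea i) : ℤ) else 0)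
        + ∑ i, ∑ j, if i < j ∧ b i = true ∧ b j = true then B * (cntE G.p σ (G.ey i j) : ℤ)
          else 0 := by
  unfold ext cntE
  rw [Finset.sum_add_distrib]
  congr 1
  · rw [Finset.sum_comm]
    refine Finset.sum_congr rfl fun i _ => ?_
    by_cases h : b i = true
    · simp [h, Finset.mul_sum]
    · simp [h]
  · rw [Finset.sum_comm]
    refine Finset.sum_congr rfl fun i _ => ?_
    rw [Finset.sum_comm]
    refine Finset.sum_congr rfl fun j _ => ?_
    by_cases h : i < j ∧ b i = true ∧ b j = true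
    · simp [h, Finset.mul_sum]
    · simp only [if_neg h, Finset.sum_const_zero]

theorem ext_low (b : Fin m → Bool) (p q : ℕ × ℕ) :
    -(∑ i, if b i = true then (A * ind (G.ea i) p q : ℤ) else 0) ≤ ext G A B b p q := by
  unfold ext
  have h1 : -(∑ i, if b i = true then (A * ind (G.ea i) p q : ℤ) else 0)
      = ∑ i, if b i = true then -(A * ind (G.ea i) p q : ℤ) else 0 := by
    rw [← Finset.sum_neg_distrib]
    refine Finset.sum_congr rfl fun i _ => ?_
    split_ifs <;> simp
  have h2 : (0 : ℤ) ≤ ∑ i, ∑ j, if i < j ∧ b i = true ∧ b j = true then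
      B * (ind (G.ey i j) p q : ℤ) else 0 := by
    refine Finset.sum_nonneg fun i _ => Finset.sum_nonneg fun j _ => ?_
    split_ifs
    · positivity
    · exact le_rfl
  linarith

theorem ind_sum_nonneg (b : Fin m → Bool) (p q : ℕ × ℕ) :
    (0 : ℤ) ≤ ∑ i, if b i = true then (A * ind (G.ea i) p q : ℤ) else 0 := by
  refine Finset.sum_nonneg fun i _ => ?_
  split_ifs
  · positivity
  · exact le_rfl

theorem ucost_low (b : Fin m → Bool) {K : ℤ} (hK : 0 ≤ K) (p q : ℕ × ℕ) :
    -(∑ i, if b i = true then (A * ind (G.ea i) p q : ℤ) else 0)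
      ≤ ucost (hh G K₀) (vv G A B K₀ b) K p q := by
  by_cases hn : Nb p q
  · rw [ucost_eq G A B K₀ b K hn]
    have := ext_low G A B b p q
    have h2 : (0 : ℤ) ≤ (K₀ : ℤ) * ncost G.h G.v p q := by positivity
    linarith
  · rw [ucost_not hn]
    have := ind_sum_nonneg G A b p q
    linarith

/-- size of the set -/
def size (b : Fin m → Bool) : ℕ := (Finset.univ.filter fun i => b i = true).card

theorem sum_size (b : Fin m → Bool) (c : ℤ) : (∑ i, if b i = true then c else 0) = size b * c := by
  unfold size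
  rw [Finset.sum_ite, Finset.sum_const_zero, add_zero, Finset.sum_const, nsmul_eq_mul]

theorem sum_ind (b : Fin m → Bool) (σ : Equiv.Perm (Fin G.n)) :
    ∑ i, (∑ e, if b e = true then
      (A * ind (G.ea e) (G.p (σ i)) (G.p (σ (finRotate G.n i))) : ℤ) else 0) ≤ size b * A := by
  rw [Finset.sum_comm, ← sum_size]
  refine Finset.sum_le_sum fun e _ => ?_
  by_cases hb : b e = true
  · simp only [hb, if_true]
    have h := cntE_eq G.hn G.p G.hp σ (G.ea e)
    unfold cntE at h
    rw [← Finset.mul_sum]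
    have h2 : ((∑ i, ind (G.ea e) (G.p (σ i)) (G.p (σ (finRotate G.n i))) : ℕ) : ℤ) ≤ 1 := by
      rw [h]; split_ifs <;> simp
    push_cast at h2
    have hA : (0 : ℤ) ≤ A := by positivity
    nlinarith
  · simp [hb]

theorem tcost_unit (b : Fin m → Bool) (K : ℤ) (σ : Equiv.Perm (Fin G.n)) (hσ : UnitTour G.p σ) :
    tcost (hh G K₀) (vv G A B K₀ b) K G.p σ
      = (K₀ : ℤ) * (∑ i, ncost G.h G.v (G.p (σ i)) (G.p (σ (finRotate G.n i))) : ℕ)
        + ((∑ i, if b i = true then -(A * cntE G.p σ (G.ea i) : ℤ) else 0)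
        + ∑ i, ∑ j, if i < j ∧ b i = true ∧ b j = true then B * (cntE G.p σ (G.ey i j) : ℤ)
          else 0) := by
  unfold tcost
  rw [Finset.sum_congr rfl fun i _ => ucost_eq G A B K₀ b K (hσ i), Finset.sum_add_distrib,
    sum_ext, ← Finset.mul_sum]
  push_cast
  rfl

/-- number of pairs -/
theorem pairs_eq (c : Fin m → Bool) (D : ℤ) :
    2 * (∑ i, ∑ j, if i < j ∧ c i = true ∧ c j = true then D else 0)
      = D * ((∑ i, if c i = true then (1 : ℤ) else 0) ^ 2
        - ∑ i, if c i = true then (1 : ℤ) else 0) := by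
  have h := pairs_sum c
  set s : ℤ := ∑ i, if c i = true then (1 : ℤ) else 0
  have e : 2 * (∑ i, ∑ j, if i < j ∧ c i = true ∧ c j = true then D else 0)
      = D * ∑ i, ∑ j, if i < j ∧ c i = true ∧ c j = true then (2 : ℤ) else 0 := by
    rw [Finset.mul_sum, Finset.mul_sum]
    refine Finset.sum_congr rfl fun i _ => ?_
    rw [Finset.mul_sum, Finset.mul_sum]
    refine Finset.sum_congr rfl fun j _ => ?_
    split_ifs
    · ring
    · simp
  rw [e]
  have h2 : (∑ i, ∑ j, if i < j ∧ c i = true ∧ c j = true then (2 : ℤ) else 0) = s ^ 2 - s := by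
    linarith
  rw [h2]

/-- nonnegativity of `(u - k) (u - k - 1)` -/
theorem quad_nonneg (u k : ℤ) : 0 ≤ (u - k) * (u - k - 1) := by
  rcases le_or_gt (u - k) 0 with h | h
  · nlinarith
  · have : 1 ≤ u - k := h
    nlinarith

variable {G A B K₀}

/-- lower bound for the cost of every tour; the costs are `c` times the quadratic form of
`(u - k) (u - k - 1)` -/
theorem tcost_low {k c : ℕ} (hA : A = 2 * k * c) (hB : B = 2 * c) (b : Fin m → Bool)
    (hK : size b * A + 1 ≤ K₀) (σ : Equiv.Perm (Fin G.n)) :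
    (K₀ : ℤ) * G.B - c * (k * (k + 1))
      ≤ tcost (hh G K₀) (vv G A B K₀ b) (K₀ * G.B + size b * A) G.p σ := by
  classical
  have hck : (0 : ℤ) ≤ c * (k * (k + 1)) := by positivity
  by_cases hσ : UnitTour G.p σ
  · rw [tcost_unit G A B K₀ b _ σ hσ]
    have hlow := G.low σ hσ
    set S : ℕ := ∑ i, ncost G.h G.v (G.p (σ i)) (G.p (σ (finRotate G.n i))) with hS
    rcases hlow.eq_or_lt with h | h
    · rw [← h]
      have hsound := G.sound σ hσ h.symm
      set e : Fin m → Bool := fun i => decide (b i = true ∧ Used G.p σ (G.ea i)) with he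
      have hei : ∀ i, e i = true ↔ b i = true ∧ Used G.p σ (G.ea i) := by
        intro i; rw [he]; simp
      have h1 : (∑ i, if b i = true then -(A * cntE G.p σ (G.ea i) : ℤ) else 0)
          = -(A * ∑ i, if e i = true then (1 : ℤ) else 0) := by
        rw [Finset.mul_sum, ← Finset.sum_neg_distrib]
        refine Finset.sum_congr rfl fun i _ => ?_
        rw [cntE_eq G.hn G.p G.hp]
        by_cases hb : b i = true <;> by_cases hu : Used G.p σ (G.ea i) <;>
          simp [hei, hb, hu]
      have h2 : (∑ i, ∑ j, if i < j ∧ e i = true ∧ e j = true then (B : ℤ) else 0)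
          ≤ ∑ i, ∑ j, if i < j ∧ b i = true ∧ b j = true then B * (cntE G.p σ (G.ey i j) : ℤ)
            else 0 := by
        refine Finset.sum_le_sum fun i _ => Finset.sum_le_sum fun j _ => ?_
        by_cases h3 : i < j ∧ e i = true ∧ e j = true
        · rw [if_pos h3]
          obtain ⟨hij, hi, hj⟩ := h3
          rw [hei] at hi hj
          rw [if_pos ⟨hij, hi.1, hj.1⟩, cntE_eq G.hn G.p G.hp,
            if_pos (hsound i j hij hi.2 hj.2)]
          simp
        · rw [if_neg h3]
          split_ifs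
          · positivity
          · exact le_rfl
      have h3 := pairs_eq e (B : ℤ)
      set u : ℤ := ∑ i, if e i = true then (1 : ℤ) else 0 with hu
      rw [h1]
      have h4 := quad_nonneg u k
      have h5 : (0 : ℤ) ≤ c * ((u - k) * (u - k - 1)) := mul_nonneg (by positivity) h4
      have hA' : (A : ℤ) = 2 * k * c := by rw [hA]; push_cast; ring
      have hB' : (B : ℤ) = 2 * c := by rw [hB]; push_cast; ring
      rw [hA']
      rw [hB'] at h2 h3
      have h6 : (∑ i, ∑ j, if i < j ∧ e i = true ∧ e j = true then (2 * c : ℤ) else 0)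
          = c * (u ^ 2 - u) := by linarith
      rw [hB'] 
      rw [h6] at h2
      nlinarith
    · have h1 : -(size b * A : ℤ) ≤ ∑ i, if b i = true then -(A * cntE G.p σ (G.ea i) : ℤ) else 0 := by
        rw [← mul_neg, ← sum_size]
        refine Finset.sum_le_sum fun i _ => ?_
        rw [cntE_eq G.hn G.p G.hp]
        have hA0 : (0 : ℤ) ≤ A := by positivity
        split_ifs <;> simp
      have h2 : (0 : ℤ) ≤ ∑ i, ∑ j, if i < j ∧ b i = true ∧ b j = true then
          B * (cntE G.p σ (G.ey i j) : ℤ) else 0 := by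
        refine Finset.sum_nonneg fun i _ => Finset.sum_nonneg fun j _ => ?_
        split_ifs
        · positivity
        · exact le_rfl
      have h3 : (K₀ : ℤ) * G.B + K₀ ≤ (K₀ : ℤ) * (S : ℕ) := by
        have : (G.B : ℤ) + 1 ≤ (S : ℕ) := by exact_mod_cast h
        have h0 : (0 : ℤ) ≤ K₀ := by positivity
        nlinarith
      have h4 : (size b : ℤ) * A + 1 ≤ K₀ := by exact_mod_cast hK
      linarith
  · unfold UnitTour at hσ
    push Not at hσ
    obtain ⟨i0, hi0⟩ := hσ
    have hK' : (0 : ℤ) ≤ K₀ * G.B + size b * A := by positivity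
    unfold tcost
    rw [← Finset.add_sum_erase _ _ (Finset.mem_univ i0), ucost_not hi0]
    have h1 : ∑ i ∈ Finset.univ.erase i0,
        -(∑ e, if b e = true then
          (A * ind (G.ea e) (G.p (σ i)) (G.p (σ (finRotate G.n i))) : ℤ) else 0)
        ≤ ∑ i ∈ Finset.univ.erase i0, ucost (hh G K₀) (vv G A B K₀ b) (K₀ * G.B + size b * A)
          (G.p (σ i)) (G.p (σ (finRotate G.n i))) :=
      Finset.sum_le_sum fun i _ => ucost_low G A B K₀ b hK' _ _
    rw [Finset.sum_neg_distrib] at h1
    have h2 := sum_ind G A b σ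
    have h3 : ∑ i ∈ Finset.univ.erase i0,
        (∑ e, if b e = true then
          (A * ind (G.ea e) (G.p (σ i)) (G.p (σ (finRotate G.n i))) : ℤ) else 0)
        ≤ ∑ i, (∑ e, if b e = true then
          (A * ind (G.ea e) (G.p (σ i)) (G.p (σ (finRotate G.n i))) : ℤ) else 0) :=
      Finset.sum_le_sum_of_subset_of_nonneg (Finset.erase_subset _ _) fun i _ _ =>
        ind_sum_nonneg G A b _ _
    linarith

/-- the cost of the tour of the set `a` -/
theorem tcost_tour {k c : ℕ} (hA : A = 2 * k * c) (hB : B = 2 * c) (a b : Fin m → Bool) (K : ℤ) :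
    tcost (hh G K₀) (vv G A B K₀ b) K G.p (G.tour a) = ((K₀ : ℤ) * G.B - c * (k * (k + 1)))
      + c * ((Gadget.cap a b - k) * (Gadget.cap a b - k - 1)) := by
  classical
  obtain ⟨hσ, hBB, hea, hey⟩ := G.tour_spec a
  rw [tcost_unit G A B K₀ b _ _ hσ, hBB]
  set e : Fin m → Bool := fun i => decide (a i = true ∧ b i = true) with he
  have hei : ∀ i, e i = true ↔ a i = true ∧ b i = true := by
    intro i; rw [he]; simp
  have hcap : Gadget.cap a b = ∑ i, if e i = true then (1 : ℤ) else 0 := by
    unfold Gadget.cap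
    exact Finset.sum_congr rfl fun i _ => by simp only [hei]
  have h1 : (∑ i, if b i = true then -(A * cntE G.p (G.tour a) (G.ea i) : ℤ) else 0)
      = -(A * ∑ i, if e i = true then (1 : ℤ) else 0) := by
    rw [Finset.mul_sum, ← Finset.sum_neg_distrib]
    refine Finset.sum_congr rfl fun i _ => ?_
    rw [cntE_eq G.hn G.p G.hp]
    simp only [hea, hei]
    by_cases hb : b i = true <;> by_cases ha : a i = true <;> simp [hb, ha]
  have h2 : (∑ i, ∑ j, if i < j ∧ b i = true ∧ b j = true then
        B * (cntE G.p (G.tour a) (G.ey i j) : ℤ) else 0)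
      = ∑ i, ∑ j, if i < j ∧ e i = true ∧ e j = true then (B : ℤ) else 0 := by
    refine Finset.sum_congr rfl fun i _ => Finset.sum_congr rfl fun j _ => ?_
    by_cases hij : i < j
    · rw [cntE_eq G.hn G.p G.hp]
      simp only [hey i j hij, hei]
      by_cases hb : b i = true <;> by_cases ha : a i = true <;>
        by_cases hb' : b j = true <;> by_cases ha' : a j = true <;> simp [hb, ha, hb', ha', hij]
    · simp [hij]
  have h3 := pairs_eq e (B : ℤ)
  rw [h1, h2, ← hcap]
  rw [← hcap] at h3
  have hA' : (A : ℤ) = 2 * k * c := by rw [hA]; push_cast; ring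
  have hB' : (B : ℤ) = 2 * c := by rw [hB]; push_cast; ring
  rw [hB'] at h3
  rw [hA', hB']
  have h6 : (∑ i, ∑ j, if i < j ∧ e i = true ∧ e j = true then (2 * c : ℤ) else 0)
      = c * (Gadget.cap a b ^ 2 - Gadget.cap a b) := by linarith
  rw [h6]
  ring

theorem abs_hh (x y : ℕ) : |hh G K₀ x y| ≤ (K₀ * G.C : ℕ) := by
  unfold hh
  rw [abs_of_nonneg (by positivity)]
  exact_mod_cast Nat.mul_le_mul_left _ (G.hC x y)

theorem abs_vv (b : Fin m → Bool) (x y : ℕ) :
    |vv G A B K₀ b x y| ≤ (K₀ * G.C + size b * A + size b * size b * B : ℕ) := by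
  unfold vv
  have h1 : |(K₀ : ℤ) * G.v x y| ≤ (K₀ * G.C : ℕ) := by
    rw [abs_of_nonneg (by positivity)]
    exact_mod_cast Nat.mul_le_mul_left _ (G.vC x y)
  have h2 : |extra G A B b x y| ≤ (size b * A + size b * size b * B : ℕ) := by
    unfold extra
    push_cast
    refine (abs_add_le _ _).trans (add_le_add ?_ ?_)
    · refine (Finset.abs_sum_le_sum_abs _ _).trans ?_
      rw [← sum_size]
      refine Finset.sum_le_sum fun i _ => ?_
      by_cases hb : b i = true <;> by_cases he : G.ea i = (x, y) <;> simp [hb, he]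
    · refine (Finset.abs_sum_le_sum_abs _ _).trans ?_
      have e : (size b : ℤ) * size b * B
          = ∑ i, if b i = true then (size b * B : ℤ) else 0 := by
        rw [sum_size]; ring
      rw [e]
      refine Finset.sum_le_sum fun i _ => ?_
      refine (Finset.abs_sum_le_sum_abs _ _).trans ?_
      by_cases hb : b i = true
      · rw [if_pos hb, ← sum_size]
        refine Finset.sum_le_sum fun j _ => ?_
        by_cases hb' : b j = true <;> by_cases hij : i < j <;> by_cases he : G.ey i j = (x, y) <;>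
          simp [hb, hb', hij, he]
      · simp [hb]
  refine (abs_add_le _ _).trans ?_
  push_cast at h1 h2 ⊢
  linarith

/-- the gadget with quadratic costs; the objectives are the sets of size at most `S` -/
noncomputable def toGC {m : ℕ} (G : Gadget m) (k c S : ℕ) :
    GC (Fin m → Bool) {b : Fin m → Bool // size b = S}
      (fun a b => c * ((Gadget.cap a b.1 - k) * (Gadget.cap a b.1 - k - 1))) where
  n := G.n
  hn := G.hn
  p := G.p
  hp := G.hp
  h _ := hh G (S * (2 * k * c) + 1)
  v b := vv G (2 * k * c) (2 * c) (S * (2 * k * c) + 1) b.1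
  Cb := (S * (2 * k * c) + 1) * G.C + S * (2 * k * c) + S * S * (2 * c)
  hC b x y := (abs_hh x y).trans (by
    have : (S * (2 * k * c) + 1) * G.C
      ≤ (S * (2 * k * c) + 1) * G.C + S * (2 * k * c) + S * S * (2 * c) := by omega
    exact_mod_cast this)
  vC b x y := by
    have := abs_vv (G := G) (A := 2 * k * c) (B := 2 * c) (K₀ := S * (2 * k * c) + 1) b.1 x y
    rw [b.2] at this
    exact this
  K := (S * (2 * k * c) + 1) * G.B + S * (2 * k * c)
  O _ := ((S * (2 * k * c) + 1 : ℕ) : ℤ) * G.B - c * (k * (k + 1))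
  low b σ := by
    have := tcost_low (G := G) (K₀ := S * (2 * k * c) + 1) (k := k) (c := c) rfl rfl b.1
      (by rw [b.2]) σ
    rw [b.2] at this
    push_cast at this ⊢
    exact this
  tour a := G.tour a
  unit a := (G.tour_spec a).1
  val a b := tcost_tour rfl rfl a b.1 _

end Q

end Pool.Agent.Helper68.SDP
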