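import Mathlib

set_option autoImplicit false

/-!
# Lower bound for semidefinite formulations: definitions and module statements

The modules prove a version of the theorem of Lee, Raghavendra and Steurer (superpolynomial lower
bounds for the positive semidefinite rank of pattern matrices) with an elementary proof: the power
method replaces quantum entropy, Cramer's rule replaces John's theorem.
Blueprint: /team-store/sdp_blueprint.md
-/

namespace Pool.Agent.Helper68.SDP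

open Matrix Finset

/-- character of the cube -/
def chi {ι : Type} (A : Finset ι) (x : ι → Bool) : ℝ := ∏ i ∈ A, (if x i = true then (-1 : ℝ) else 1)

/-- functions of degree at most `k` on the cube -/
def Deg (ι : Type) (k : ℕ) : Submodule ℝ ((ι → Bool) → ℝ) :=
  Submodule.span ℝ {q | ∃ A : Finset ι, A.card ≤ k ∧ q = chi A}

/-- the variables selected by `φ` -/
def sel {m N : ℕ} (φ : Fin m → Fin N) (x : Fin m × Fin N → Bool) : Fin m → Bool :=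
  fun i => x (i, φ i)

/-- `D` is nonnegative on squares of functions of degree at most `t` -/
def Pseudo (m t : ℕ) (D : (Fin m → Bool) → ℝ) : Prop :=
  ∀ q ∈ Deg (Fin m) t, 0 ≤ ∑ z, D z * q z ^ 2

/-- number of ones -/
def wt {m : ℕ} (z : Fin m → Bool) : ℕ := (univ.filter fun i => z i = true).card

/-- KN: the knapsack pseudo-density -/
def specKN : Prop := ∀ t : ℕ, 1 ≤ t → ∃ D : (Fin (4 * t + 1) → Bool) → ℝ, Pseudo (4 * t + 1) t D ∧
  ∑ z, D z * (((wt z : ℝ) - 2 * t) * ((wt z : ℝ) - 2 * t - 1)) < 0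

/-- FO: splitting a function into a part of low degree in the selected variables and a small
rest -/
def specFO : Prop := ∀ (m N t k : ℕ), 1 ≤ N → ∀ D : (Fin m → Bool) → ℝ, Pseudo m t D →
  ∃ low : (Fin m → Fin N) →
      ((Fin m × Fin N → Bool) → ℝ) →ₗ[ℝ] ((Fin m × Fin N → Bool) → ℝ),
    (∀ φ q, 0 ≤ ∑ x, D (sel φ x) * low φ q x ^ 2) ∧
    ∀ q ∈ Deg (Fin m × Fin N) k,
      (∑ φ, ∑ x, (q x - low φ q x) ^ 2) * (N : ℝ) ^ (t + 1)
        ≤ 2 ^ m * (k : ℝ) ^ (t + 1) * (N : ℝ) ^ m * ∑ x, q x ^ 2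

/-- DG: degrees of products and of functions of `m` selected variables -/
def specDG : Prop :=
  (∀ (ι : Type) [Fintype ι] [DecidableEq ι] (k l : ℕ) (p q : (ι → Bool) → ℝ),
    p ∈ Deg ι k → q ∈ Deg ι l → (fun x => p x * q x) ∈ Deg ι (k + l)) ∧
  ∀ (m N : ℕ) (D : (Fin m → Bool) → ℝ) (φ : Fin m → Fin N),
    (fun x => D (sel φ x)) ∈ Deg (Fin m × Fin N) m

/-- PO: the power method -/
def specPO : Prop := ∀ (X : Type) [Fintype X] (r : ℕ) (A Q : X → Matrix (Fin r) (Fin r) ℝ),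
  (∀ x, (A x).PosSemidef) → (∀ x, (Q x).PosSemidef) →
  (∀ c θ : ℝ, 0 < c → 0 ≤ θ → (∀ x, (c • (1 : Matrix (Fin r) (Fin r) ℝ) - Q x).PosSemidef) →
    0 < ∑ x, (Q x).trace → θ * ∑ x, (Q x).trace ≤ ∑ x, (A x * Q x).trace →
    ∀ j : ℕ, θ ^ j * ∑ x, (Q x).trace ≤ c * ∑ x, (A x ^ j).trace) ∧
  ∀ θ : ℝ, 0 ≤ θ → ∀ j : ℕ,
    (∑ x, (A x ^ (j + 1)).trace) - θ ^ (j + 1) * (r * Fintype.card X)
      ≤ (j + 1) * ((∑ x, (A x ^ (j + 1)).trace) - θ * ∑ x, (A x ^ j).trace)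

/-- RE: rescaling a positive semidefinite factorization -/
def specRE : Prop := ∀ (F X : Type) [Fintype F] [Nonempty F] [Fintype X] [Nonempty X] (r : ℕ),
  1 ≤ r → ∀ (P : F → Matrix (Fin r) (Fin r) ℝ) (Q : X → Matrix (Fin r) (Fin r) ℝ) (b : ℝ), 0 < b →
  (∀ φ, (P φ).PosSemidef) → (∀ x, (Q x).PosSemidef) → (∀ φ x, (P φ * Q x).trace ≤ b) →
  ∃ (P' : F → Matrix (Fin r) (Fin r) ℝ) (Q' : X → Matrix (Fin r) (Fin r) ℝ),
    (∀ φ, (P' φ).PosSemidef) ∧ (∀ x, (Q' x).PosSemidef) ∧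
    (∀ φ x, (P' φ * Q' x).trace = (P φ * Q x).trace) ∧
    (∀ φ, ((r : ℝ) ^ 4 • (1 : Matrix (Fin r) (Fin r) ℝ) - P' φ).PosSemidef) ∧
    ((Fintype.card F : ℝ) • (1 : Matrix (Fin r) (Fin r) ℝ) - ∑ φ, P' φ).PosSemidef ∧
    (∀ x, ((2 * (r : ℝ) ^ 4 * b) • (1 : Matrix (Fin r) (Fin r) ℝ) - Q' x).PosSemidef) ∧
    ∑ x, (Q' x).trace ≤ 2 * b * Fintype.card X

/-- DU: approximate duality for semidefinite programs, without any regularity condition -/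
def specDU : Prop := ∀ (d r s : ℕ) (B₀ : Matrix (Fin r) (Fin r) ℝ)
  (B : Fin d → Matrix (Fin r) (Fin r) ℝ) (E : Fin s → Fin d → ℝ) (e : Fin s → ℝ),
  B₀.IsHermitian → (∀ j, (B j).IsHermitian) →
  ∀ (ι : Type) [Fintype ι] [Nonempty ι] (x : ι → Fin d → ℝ),
  (∀ i, (B₀ + ∑ j, x i j • B j).PosSemidef) → (∀ i k, ∑ j, E k j * x i j = e k) →
  ∀ (c : Fin d → ℝ) (c₀ t : ℝ),
  (∀ y : Fin d → ℝ, (B₀ + ∑ j, y j • B j).PosSemidef → (∀ k, ∑ j, E k j * y j = e k) →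
    t ≤ ∑ j, c j * y j + c₀) →
  ∀ η : ℝ, 0 < η → ∃ (U : Matrix (Fin r) (Fin r) ℝ) (u₀ : ℝ), U.PosSemidef ∧ 0 ≤ u₀ ∧
    ∀ i, |(∑ j, c j * x i j + c₀ - t) - (u₀ + (U * (B₀ + ∑ j, x i j • B j)).trace)| ≤ η

/-- LRS: the lower bound for the size of approximate positive semidefinite factorizations of
pattern matrices (from FO, DG, PO, RE) -/
def specLRS : Prop := ∀ (m t : ℕ) (f D : (Fin m → Bool) → ℝ), (∀ z, 0 ≤ f z) → Pseudo m t D →
  ∑ z, D z * f z < 0 → ∃ e₀ c : ℝ, 0 < e₀ ∧ 0 < c ∧ ∀ (N r : ℕ), 1 ≤ N → 1 ≤ r →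
    ∀ (P : (Fin m → Fin N) → Matrix (Fin r) (Fin r) ℝ)
      (Q : (Fin m × Fin N → Bool) → Matrix (Fin r) (Fin r) ℝ),
    (∀ φ, (P φ).PosSemidef) → (∀ x, (Q x).PosSemidef) →
    (∀ φ x, |(P φ * Q x).trace - f (sel φ x)| ≤ e₀) →
    c * (N : ℝ) ^ (t + 1) ≤ (r : ℝ) ^ 4 * (1 + Real.log r) ^ (t + 1)

end Pool.Agent.Helper68.SDP
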