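import Pool.Agent.Helper68.SDP.Base
import Pool.Agent.Helper68.SDP.Spec

set_option autoImplicit false

/-!
# The matrix theorem (assembly)
-/

namespace Pool.Agent.Helper68.SDP

open Matrix Finset

section one

variable {X : Type} [Fintype X] {r : ℕ}

/-- one test -/
theorem one_test (low : (X → ℝ) →ₗ[ℝ] (X → ℝ)) (w : X → ℝ)
    (hlow : ∀ q, 0 ≤ ∑ x, w x * low q x ^ 2) {D₀ : ℝ} (hw : ∀ x, |w x| ≤ D₀) {s : ℝ} (hs : 0 < s)
    {P : Matrix (Fin r) (Fin r) ℝ} (hP : P.PosSemidef) {β : ℝ}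
    (hβ : (β • (1 : Matrix (Fin r) (Fin r) ℝ) - P).PosSemidef)
    (R : X → Matrix (Fin r) (Fin r) ℝ) :
    -(D₀ * (2 * s * ∑ x, (P * (R x * (R x)ᵀ)).trace + (2 * s + 1 + 1 / s) * (β *
      ∑ x, ∑ i, ∑ j, (R x i j - low (fun x => R x i j) x) ^ 2)))
      ≤ ∑ x, w x * (P * (R x * (R x)ᵀ)).trace := by
  obtain ⟨V, rfl⟩ := psd_factor hP
  set H : X → Matrix (Fin r) (Fin r) ℝ := fun x => Matrix.of fun i j =>
    R x i j - low (fun x => R x i j) x with hH
  set y : Fin r → Fin r → X → ℝ := fun i j x => (V * R x) i j with hy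
  set z : Fin r → Fin r → X → ℝ := fun i j x => (V * H x) i j with hz
  have hyz : ∀ i j x, z i j x = y i j x - low (y i j) x := by
    intro i j x
    have e1 : y i j = ∑ k, V i k • fun x => R x k j := by
      funext x
      simp only [hy, mul_apply, Finset.sum_apply, Pi.smul_apply, smul_eq_mul]
    rw [e1, map_sum, Finset.sum_apply, Finset.sum_apply]
    simp only [hz, mul_apply, hH, of_apply, map_smul, Pi.smul_apply, smul_eq_mul]
    rw [← sum_sub_distrib]
    exact sum_congr rfl fun k _ => by ring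
  have hD0 : 0 ≤ D₀ ∨ IsEmpty X := by
    rcases isEmpty_or_nonempty X with h | ⟨⟨x⟩⟩
    · exact Or.inr h
    · exact Or.inl ((abs_nonneg _).trans (hw x))
  rcases hD0 with hD0 | hX
  swap
  · simp
  -- scalar inequality
  have hsc : ∀ i j, -(D₀ * (2 * s * ∑ x, y i j x ^ 2 + (2 * s + 1 + 1 / s) * ∑ x, z i j x ^ 2))
      ≤ ∑ x, w x * y i j x ^ 2 := by
    intro i j
    have h1 : ∀ x, w x * low (y i j) x ^ 2
        - D₀ * (2 * s * y i j x ^ 2 + (2 * s + 1 + 1 / s) * z i j x ^ 2) ≤ w x * y i j x ^ 2 := by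
      intro x
      set l := low (y i j) x with hl
      have e : y i j x = l + z i j x := by rw [hyz]; ring
      rw [e]
      set h := z i j x
      obtain ⟨w1, w2⟩ := abs_le.mp (hw x)
      have k1 : 2 * |l * h| ≤ s * l ^ 2 + 1 / s * h ^ 2 := by
        have h3 : 0 ≤ (s * |l| - |h|) ^ 2 / s := div_nonneg (sq_nonneg _) hs.le
        have h4 : (s * |l| - |h|) ^ 2 / s = s * l ^ 2 - 2 * |l * h| + 1 / s * h ^ 2 := by
          rw [abs_mul, div_eq_iff hs.ne']
          have e1 : |l| ^ 2 = l ^ 2 := sq_abs l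
          have e2 : |h| ^ 2 = h ^ 2 := sq_abs h
          have e3 : 1 / s * s = 1 := by field_simp
          linear_combination s ^ 2 * e1 + e2 - h ^ 2 * e3
        linarith
      have k2 : l ^ 2 ≤ 2 * (l + h) ^ 2 + 2 * h ^ 2 := by nlinarith [sq_nonneg (l + 2 * h)]
      have k3 : w x * (l + h) ^ 2 = w x * l ^ 2 + w x * (2 * (l * h) + h ^ 2) := by ring
      have k4 : |w x * (2 * (l * h) + h ^ 2)| ≤ D₀ * (2 * |l * h| + h ^ 2) := by
        rw [abs_mul]
        apply mul_le_mul (hw x) _ (abs_nonneg _) hD0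
        refine (abs_add_le _ _).trans ?_
        rw [abs_mul, abs_of_nonneg (sq_nonneg h), abs_of_nonneg (by norm_num : (0 : ℝ) ≤ 2)]
      have k5 := (abs_le.mp k4).1
      have k6 : D₀ * (2 * |l * h| + h ^ 2)
          ≤ D₀ * (2 * s * (l + h) ^ 2 + (2 * s + 1 + 1 / s) * h ^ 2) := by
        apply mul_le_mul_of_nonneg_left _ hD0
        have : s * l ^ 2 ≤ s * (2 * (l + h) ^ 2 + 2 * h ^ 2) := mul_le_mul_of_nonneg_left k2 hs.le
        linarith
      rw [k3]
      linarith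
    have h2 := sum_le_sum fun x (_ : x ∈ (univ : Finset X)) => h1 x
    rw [sum_sub_distrib, ← mul_sum, sum_add_distrib, ← mul_sum, ← mul_sum] at h2
    have h3 := hlow (y i j)
    linarith
  -- sum over the entries
  have hsum := sum_le_sum fun i (_ : i ∈ (univ : Finset (Fin r))) =>
    sum_le_sum fun j (_ : j ∈ (univ : Finset (Fin r))) => hsc i j
  have swap : ∀ g : Fin r → Fin r → X → ℝ,
      ∑ i, ∑ j, ∑ x, g i j x = ∑ x, ∑ i, ∑ j, g i j x := by
    intro g
    calc ∑ i, ∑ j, ∑ x, g i j x = ∑ i, ∑ x, ∑ j, g i j x := sum_congr rfl fun i _ => sum_comm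
      _ = ∑ x, ∑ i, ∑ j, g i j x := sum_comm
  have e1 : ∀ x, (Vᵀ * V * (R x * (R x)ᵀ)).trace = ∑ i, ∑ j, y i j x ^ 2 := fun x => by
    rw [trace_three]; rfl
  have e2 : ∀ x, (Vᵀ * V * (H x * (H x)ᵀ)).trace = ∑ i, ∑ j, z i j x ^ 2 := fun x => by
    rw [trace_three]; rfl
  have e3 : ∀ x, (Vᵀ * V * (H x * (H x)ᵀ)).trace ≤ β * ∑ i, ∑ j, H x i j ^ 2 := by
    intro x
    have h1 : (H x * (H x)ᵀ).PosSemidef := by
      have := psd_transpose_mul (H x)ᵀ
      rwa [transpose_transpose] at this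
    refine (trace_mul_le hβ h1).trans (le_of_eq ?_)
    rw [trace_mul_transpose]; rfl
  have e4 := sum_le_sum fun x (_ : x ∈ (univ : Finset X)) => e3 x
  simp only [sum_neg_distrib, sum_add_distrib, ← mul_sum] at hsum
  rw [swap, swap, swap] at hsum
  simp only [e1]
  simp only [e2] at e4
  rw [← mul_sum] at e4
  have e5 : ∑ x, ∑ i, ∑ j, w x * y i j x ^ 2 = ∑ x, w x * ∑ i, ∑ j, y i j x ^ 2 := by
    simp only [mul_sum]
  rw [e5] at hsum
  refine le_trans ?_ hsum
  have h6 : 0 ≤ 2 * s + 1 + 1 / s := by positivity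
  have h7 : (2 * s + 1 + 1 / s) * ∑ x, ∑ i, ∑ j, z i j x ^ 2
      ≤ (2 * s + 1 + 1 / s) * (β * ∑ x, ∑ i, ∑ j, H x i j ^ 2) :=
    mul_le_mul_of_nonneg_left e4 h6
  have h8 : D₀ * (2 * s * ∑ x, ∑ i, ∑ j, y i j x ^ 2 + (2 * s + 1 + 1 / s) *
      ∑ x, ∑ i, ∑ j, z i j x ^ 2) ≤ D₀ * (2 * s * ∑ x, ∑ i, ∑ j, y i j x ^ 2
        + (2 * s + 1 + 1 / s) * (β * ∑ x, ∑ i, ∑ j, H x i j ^ 2)) :=
    mul_le_mul_of_nonneg_left (by linarith) hD0
  have h9 : ∀ x i j, H x i j = R x i j - low (fun x => R x i j) x := fun x i j => rfl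
  simp only [h9] at h8
  linarith

end one

/-- the values of a function of the selected variables -/
theorem sum_sel {m N : ℕ} (φ : Fin m → Fin N) (G : (Fin m → Bool) → ℝ) :
    2 ^ m * ∑ x, G (sel φ x) = (Fintype.card (Fin m × Fin N → Bool) : ℝ) * ∑ z, G z := by
  have h1 : ∀ a : Fin m → Bool, ∑ x, G (sel φ x) = ∑ x, G (fun i => xor (sel φ x i) (a i)) := by
    intro a
    let e : (Fin m × Fin N → Bool) ≃ (Fin m × Fin N → Bool) :=
      { toFun := fun x p => xor (x p) (decide (p.2 = φ p.1) && a p.1)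
        invFun := fun x p => xor (x p) (decide (p.2 = φ p.1) && a p.1)
        left_inv := fun x => by funext p; simp
        right_inv := fun x => by funext p; simp }
    rw [← Equiv.sum_comp e]
    refine sum_congr rfl fun x _ => ?_
    congr 1
    funext i
    simp [sel, e]
  have h2 : ∀ x : Fin m × Fin N → Bool, ∑ a : Fin m → Bool, G (fun i => xor (sel φ x i) (a i))
      = ∑ z, G z := by
    intro x
    let e : (Fin m → Bool) ≃ (Fin m → Bool) :=
      { toFun := fun a i => xor (sel φ x i) (a i)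
        invFun := fun a i => xor (sel φ x i) (a i)
        left_inv := fun a => by funext p; simp
        right_inv := fun a => by funext p; simp }
    exact Equiv.sum_comp e G
  have h3 : ∑ _a : Fin m → Bool, ∑ x, G (sel φ x)
      = ∑ a : Fin m → Bool, ∑ x, G (fun i => xor (sel φ x i) (a i)) :=
    sum_congr rfl fun a _ => h1 a
  have h4 : ∑ a : Fin m → Bool, ∑ x, G (fun i => xor (sel φ x i) (a i))
      = ∑ x, ∑ a : Fin m → Bool, G (fun i => xor (sel φ x i) (a i)) := sum_comm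
  rw [h4] at h3
  simp only [h2] at h3
  rw [sum_const, sum_const, card_univ, card_univ, nsmul_eq_mul, nsmul_eq_mul] at h3
  rw [← h3]
  congr 1
  simp

theorem const_mem {ι : Type} (k : ℕ) (c : ℝ) : (fun _ : ι → Bool => c) ∈ Deg ι k := by
  have h : (fun _ : ι → Bool => c) = c • chi (∅ : Finset ι) := by
    funext x; simp [chi]
  rw [h]
  exact Submodule.smul_mem _ _ (Submodule.subset_span ⟨∅, by simp, rfl⟩)

/-- degrees of the entries of powers -/
theorem pow_mem (dg : specDG) {ι : Type} [Fintype ι] [DecidableEq ι] {r m : ℕ}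
    (A : (ι → Bool) → Matrix (Fin r) (Fin r) ℝ) (hA : ∀ i j, (fun x => A x i j) ∈ Deg ι m)
    (K : ℕ) : ∀ i j, (fun x => (A x ^ K) i j) ∈ Deg ι (K * m) := by
  induction K with
  | zero =>
    intro i j
    have : (fun x => (A x ^ 0) i j) = fun _ => (1 : Matrix (Fin r) (Fin r) ℝ) i j := by
      funext x; rw [pow_zero]
    rw [this]
    exact const_mem _ _
  | succ K ih =>
    intro i j
    have : (fun x => (A x ^ (K + 1)) i j) = ∑ k, fun x => (A x ^ K) i k * A x k j := by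
      funext x
      rw [pow_succ, mul_apply, Finset.sum_apply]
    rw [this, Nat.succ_mul]
    exact Submodule.sum_mem _ fun k _ => dg.1 ι _ _ _ _ (ih i k) (hA k j)

theorem psd_sum {r : ℕ} {F : Type} [Fintype F] {P : F → Matrix (Fin r) (Fin r) ℝ}
    (h : ∀ φ, (P φ).PosSemidef) : (∑ φ, P φ).PosSemidef :=
  posSemidef_sum _ fun φ _ => h φ

/-- choice of the exponent -/
theorem exists_K {θ₁ θ₂ c₂ : ℝ} (h2 : 0 < θ₂) (h12 : θ₂ < θ₁) (hc : 0 < c₂) : ∃ C : ℝ, 0 < C ∧
    ∀ r : ℕ, 1 ≤ r → ∃ K : ℕ, (K : ℝ) ≤ C * (1 + Real.log r) ∧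
      θ₂ ^ (2 * K + 1) * (r : ℝ) ^ 5 ≤ c₂ * θ₁ ^ (2 * K + 1) := by
  have h1 : 0 < θ₁ := h2.trans h12
  set l : ℝ := Real.log (θ₁ / θ₂) with hl
  have hl0 : 0 < l := Real.log_pos (by rw [one_lt_div h2]; exact h12)
  refine ⟨5 / (2 * l) + |Real.log c₂| / (2 * l) + 1, by positivity, fun r hr => ?_⟩
  have hr' : (1 : ℝ) ≤ r := by exact_mod_cast hr
  have hlog : 0 ≤ Real.log r := Real.log_nonneg hr'
  set y : ℝ := (5 * Real.log r + |Real.log c₂|) / (2 * l) with hy
  have hy0 : 0 ≤ y := by positivity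
  refine ⟨⌈y⌉₊, ?_, ?_⟩
  · have h3 := (Nat.ceil_lt_add_one hy0).le
    refine h3.trans ?_
    have e : y = 5 / (2 * l) * Real.log r + |Real.log c₂| / (2 * l) := by
      rw [hy]; field_simp
    rw [e]
    have a1 : 0 ≤ 5 / (2 * l) := by positivity
    have a2 : 0 ≤ |Real.log c₂| / (2 * l) := by positivity
    nlinarith [mul_nonneg a2 hlog]
  · set K := ⌈y⌉₊ with hK
    have h3 : y ≤ K := Nat.le_ceil y
    have h4 : 5 * Real.log r + |Real.log c₂| ≤ 2 * K * l := by
      rw [hy, div_le_iff₀ (by positivity)] at h3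
      linarith
    have h5 : (r : ℝ) ^ 5 ≤ c₂ * (θ₁ / θ₂) ^ (2 * K + 1) := by
      rw [← Real.log_le_log_iff (by positivity) (by positivity), Real.log_mul (by positivity)
        (by positivity), Real.log_pow, Real.log_pow]
      push_cast
      have h6 := neg_abs_le (Real.log c₂)
      rw [← hl]
      linarith
    rw [div_pow, ← mul_div_assoc, le_div_iff₀ (by positivity)] at h5
    linarith

end Pool.Agent.Helper68.SDP
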