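import Pool.Agent.Helper68.SDP.LRS

set_option autoImplicit false

/-!
# The matrix theorem
-/

namespace Pool.Agent.Helper68.SDP

open Matrix Finset

/-- the core of the argument, for a rescaled factorization -/
theorem core (fo : specFO) (dg : specDG) (po : specPO) {m t N r K : ℕ} (hN : 1 ≤ N)
    (D : (Fin m → Bool) → ℝ) (hps : Pseudo m t D) {D₀ ε b : ℝ} (hD₀ : 0 < D₀) (hε : 0 < ε)
    (hb : 0 < b) (hD : ∀ z, |D z| ≤ D₀)
    (P : (Fin m → Fin N) → Matrix (Fin r) (Fin r) ℝ)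
    (Q : (Fin m × Fin N → Bool) → Matrix (Fin r) (Fin r) ℝ)
    (hP : ∀ φ, (P φ).PosSemidef) (hQ : ∀ x, (Q x).PosSemidef)
    (hr : 1 ≤ r)
    (hPr : ∀ φ, ((r : ℝ) ^ 4 • (1 : Matrix (Fin r) (Fin r) ℝ) - P φ).PosSemidef)
    (hPs : ((Fintype.card (Fin m → Fin N) : ℝ) • (1 : Matrix (Fin r) (Fin r) ℝ)
      - ∑ φ, P φ).PosSemidef)
    (hQr : ∀ x, ((2 * (r : ℝ) ^ 4 * b) • (1 : Matrix (Fin r) (Fin r) ℝ) - Q x).PosSemidef)
    {c₂ : ℝ} (hT0 : 0 < ∑ x, (Q x).trace)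
    (hT : 2 * b * c₂ * (Fintype.card (Fin m × Fin N → Bool) : ℝ) ≤ ∑ x, (Q x).trace)
    (hPQ : ∑ φ, ∑ x, D (sel φ x) * (P φ * Q x).trace
      ≤ -(ε * ((Fintype.card (Fin m → Fin N) : ℝ) * ∑ x, (Q x).trace)))
    (hK : (D₀ + ε / 2) ^ (2 * K + 1) * (r : ℝ) ^ 5 ≤ c₂ * (D₀ + ε) ^ (2 * K + 1)) :
    ε / 4 * (N : ℝ) ^ (t + 1) ≤ D₀ * (2 * (ε / (8 * D₀)) + 1 + 1 / (ε / (8 * D₀)))
      * ((r : ℝ) ^ 4 * (2 ^ m * ((K * m : ℕ) : ℝ) ^ (t + 1))) := by
  classical
  have : Nonempty (Fin m → Fin N) := ⟨fun _ => ⟨0, by omega⟩⟩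
  set nF : ℝ := (Fintype.card (Fin m → Fin N) : ℝ) with hnF
  have hnF0 : 0 < nF := Nat.cast_pos.mpr Fintype.card_pos
  have hnFN : nF = (N : ℝ) ^ m := by rw [hnF]; simp
  set T : ℝ := ∑ x, (Q x).trace with hTdef
  -- the test operator
  set L : (Fin m × Fin N → Bool) → Matrix (Fin r) (Fin r) ℝ := fun x =>
    (1 / nF) • ∑ φ, D (sel φ x) • P φ with hL
  set A : (Fin m × Fin N → Bool) → Matrix (Fin r) (Fin r) ℝ := fun x =>
    D₀ • (1 : Matrix (Fin r) (Fin r) ℝ) - L x with hA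
  have hApsd : ∀ x, (A x).PosSemidef := by
    intro x
    have e : A x = (1 / nF) • (D₀ • (nF • (1 : Matrix (Fin r) (Fin r) ℝ) - ∑ φ, P φ)
        + ∑ φ, (D₀ - D (sel φ x)) • P φ) := by
      simp only [hA, hL, sub_smul, sum_sub_distrib, smul_sub, smul_add, ← smul_sum, smul_smul]
      have e1 : 1 / nF * (D₀ * nF) = D₀ := by field_simp
      rw [e1]
      abel
    rw [e]
    refine (((hPs.smul hD₀.le).add (psd_sum fun φ => ?_))).smul (by positivity)
    exact (hP φ).smul (sub_nonneg.mpr ((le_abs_self _).trans (hD _)))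
  -- the expectation of the test operator
  have hAQ : (D₀ + ε) * T ≤ ∑ x, (A x * Q x).trace := by
    have e1 : ∀ x, (A x * Q x).trace = D₀ * (Q x).trace
        - 1 / nF * ∑ φ, D (sel φ x) * (P φ * Q x).trace := by
      intro x
      simp only [hA, hL]
      rw [Matrix.sub_mul, trace_sub, smul_mul_assoc, Matrix.one_mul, trace_smul, smul_eq_mul,
        smul_mul_assoc, trace_smul, smul_eq_mul, Matrix.sum_mul, trace_sum]
      congr 2
      refine sum_congr rfl fun φ _ => ?_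
      rw [smul_mul_assoc, trace_smul, smul_eq_mul]
    simp only [e1]
    rw [sum_sub_distrib, ← mul_sum, ← mul_sum, sum_comm]
    have e2 : 1 / nF * ∑ φ, ∑ x, D (sel φ x) * (P φ * Q x).trace
        ≤ 1 / nF * -(ε * (nF * T)) := mul_le_mul_of_nonneg_left hPQ (by positivity)
    have e3 : 1 / nF * -(ε * (nF * T)) = -(ε * T) := by field_simp
    rw [e3] at e2
    linarith
  -- the power method
  obtain ⟨po1, po2⟩ := po (Fin m × Fin N → Bool) r A Q hApsd hQ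
  have hr' : (1 : ℝ) ≤ r := by exact_mod_cast hr
  have hpow := po1 (2 * (r : ℝ) ^ 4 * b) (D₀ + ε) (by positivity) (by positivity) hQr hT0 hAQ
  have hgap := po2 (D₀ + ε / 2) (by positivity) (2 * K)
  set a : ℕ → ℝ := fun j => ∑ x, (A x ^ j).trace with ha
  set nX : ℝ := (Fintype.card (Fin m × Fin N → Bool) : ℝ) with hnX
  have hnX0 : 0 < nX := Nat.cast_pos.mpr Fintype.card_pos
  have h5 : (D₀ + ε / 2) ^ (2 * K + 1) * (r * nX) ≤ a (2 * K + 1) := by
    have h6 := hpow (2 * K + 1)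
    have h7 : (D₀ + ε) ^ (2 * K + 1) * (2 * b * c₂ * nX) ≤ 2 * (r : ℝ) ^ 4 * b * a (2 * K + 1) :=
      (mul_le_mul_of_nonneg_left hT (by positivity)).trans h6
    have h8 : (D₀ + ε / 2) ^ (2 * K + 1) * (r : ℝ) ^ 5 * nX ≤ (r : ℝ) ^ 4 * a (2 * K + 1) := by
      have h9 := mul_le_mul_of_nonneg_right hK hnX0.le
      have h10 : c₂ * (D₀ + ε) ^ (2 * K + 1) * nX ≤ (r : ℝ) ^ 4 * a (2 * K + 1) := by
        have h11 : b * (c₂ * (D₀ + ε) ^ (2 * K + 1) * nX) ≤ b * ((r : ℝ) ^ 4 * a (2 * K + 1)) := by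
          linarith
        exact le_of_mul_le_mul_left h11 hb
      linarith
    have h9 : (r : ℝ) ^ 4 * ((D₀ + ε / 2) ^ (2 * K + 1) * (r * nX))
        ≤ (r : ℝ) ^ 4 * a (2 * K + 1) := by
      calc (r : ℝ) ^ 4 * ((D₀ + ε / 2) ^ (2 * K + 1) * (r * nX))
          = (D₀ + ε / 2) ^ (2 * K + 1) * (r : ℝ) ^ 5 * nX := by ring
        _ ≤ _ := h8
    exact le_of_mul_le_mul_left h9 (by positivity)
  have h12 : (D₀ + ε / 2) * a (2 * K) ≤ a (2 * K + 1) := by
    have h13 : 0 ≤ (((2 * K : ℕ) : ℝ) + 1) * (a (2 * K + 1) - (D₀ + ε / 2) * a (2 * K)) := by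
      change a (2 * K + 1) - (D₀ + ε / 2) ^ (2 * K + 1) * (r * nX) ≤
        (((2 * K : ℕ) : ℝ) + 1) * (a (2 * K + 1) - (D₀ + ε / 2) * a (2 * K)) at hgap
      linarith
    have h14 : (0 : ℝ) < ((2 * K : ℕ) : ℝ) + 1 := by positivity
    have := nonneg_of_mul_nonneg_right h13 h14
    linarith
  have hρ : 0 < a (2 * K) := by
    have h6 := hpow (2 * K)
    have h7 : 0 < (D₀ + ε) ^ (2 * K) * T := by positivity
    have h8 : 0 < 2 * (r : ℝ) ^ 4 * b * a (2 * K) := h7.trans_le h6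
    have h9 : 0 < 2 * (r : ℝ) ^ 4 * b := by positivity
    exact (mul_pos_iff_of_pos_left h9).mp h8
  -- the square of low degree
  set R : (Fin m × Fin N → Bool) → Matrix (Fin r) (Fin r) ℝ := fun x => A x ^ K with hR
  have hAt : ∀ x, (A x)ᵀ = A x := fun x => by
    have := (hApsd x).isHermitian.eq
    rwa [conjTranspose_eq_transpose_of_trivial] at this
  have hRR : ∀ x, R x * (R x)ᵀ = A x ^ (2 * K) := by
    intro x
    rw [hR]
    simp only
    rw [transpose_pow, hAt, ← pow_add, two_mul]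
  have hLR : ∑ x, (L x * (R x * (R x)ᵀ)).trace ≤ -(ε / 2 * a (2 * K)) := by
    have e1 : ∀ x, (L x * (R x * (R x)ᵀ)).trace
        = D₀ * (A x ^ (2 * K)).trace - (A x ^ (2 * K + 1)).trace := by
      intro x
      have e2 : L x = D₀ • (1 : Matrix (Fin r) (Fin r) ℝ) - A x := by
        simp only [hA]; abel
      rw [hRR, e2, Matrix.sub_mul, trace_sub, smul_mul_assoc, Matrix.one_mul, trace_smul,
        smul_eq_mul, pow_succ']
    simp only [e1]
    rw [sum_sub_distrib, ← mul_sum]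
    change D₀ * a (2 * K) - a (2 * K + 1) ≤ _
    linarith
  have hLR2 : ∑ x, (L x * (R x * (R x)ᵀ)).trace
      = 1 / nF * ∑ φ, ∑ x, D (sel φ x) * (P φ * (R x * (R x)ᵀ)).trace := by
    have e1 : ∀ x, (L x * (R x * (R x)ᵀ)).trace
        = 1 / nF * ∑ φ, D (sel φ x) * (P φ * (R x * (R x)ᵀ)).trace := by
      intro x
      simp only [hL]
      rw [smul_mul_assoc, trace_smul, smul_eq_mul, Matrix.sum_mul, trace_sum]
      congr 1
      refine sum_congr rfl fun φ _ => ?_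
      rw [smul_mul_assoc, trace_smul, smul_eq_mul]
    simp only [e1]
    rw [← mul_sum, sum_comm]
  have hrho : ∑ x, ∑ i, ∑ j, R x i j ^ 2 = a (2 * K) := by
    rw [ha]
    refine sum_congr rfl fun x _ => ?_
    rw [← hRR, trace_mul_transpose]
    rfl
  -- degrees
  have hdegA : ∀ i j, (fun x => A x i j) ∈ Deg (Fin m × Fin N) m := by
    intro i j
    have e : (fun x => A x i j) = (fun _ => D₀ * (1 : Matrix (Fin r) (Fin r) ℝ) i j)
        - (1 / nF) • ∑ φ, (P φ i j) • fun x => D (sel φ x) := by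
      funext x
      simp only [hA, hL, Matrix.sub_apply, Matrix.smul_apply, Matrix.sum_apply, smul_eq_mul,
        Pi.sub_apply, Pi.smul_apply, Finset.sum_apply]
      congr 2
      exact sum_congr rfl fun φ _ => mul_comm _ _
    rw [e]
    refine Submodule.sub_mem _ (const_mem _ _) (Submodule.smul_mem _ _
      (Submodule.sum_mem _ fun φ _ => Submodule.smul_mem _ _ (dg.2 m N D φ)))
  have hdegR := pow_mem dg A hdegA K
  -- splitting
  obtain ⟨low, hlow, hhigh⟩ := fo m N t (K * m) hN D hps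
  set s : ℝ := ε / (8 * D₀) with hs
  have hs0 : 0 < s := by positivity
  have htest := fun φ => one_test (low φ) (fun x => D (sel φ x)) (hlow φ) (fun x => hD _) hs0
    (hP φ) (hPr φ) R
  have hsum := sum_le_sum fun φ (_ : φ ∈ (univ : Finset (Fin m → Fin N))) => htest φ
  simp only [sum_neg_distrib, sum_add_distrib, ← mul_sum] at hsum
  have hS1 : ∑ φ, ∑ x, (P φ * (R x * (R x)ᵀ)).trace ≤ nF * a (2 * K) := by
    rw [sum_comm]
    have e1 : ∀ x, ∑ φ, (P φ * (R x * (R x)ᵀ)).trace ≤ nF * (A x ^ (2 * K)).trace := by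
      intro x
      rw [hRR, ← trace_sum, ← Matrix.sum_mul]
      exact trace_mul_le hPs (psd_pow (hApsd x) _)
    refine (sum_le_sum fun x _ => e1 x).trans ?_
    rw [← mul_sum]
  have hS2 : (∑ φ, ∑ x, ∑ i, ∑ j, (R x i j - low φ (fun x => R x i j) x) ^ 2) * (N : ℝ) ^ (t + 1)
      ≤ 2 ^ m * ((K * m : ℕ) : ℝ) ^ (t + 1) * (N : ℝ) ^ m * a (2 * K) := by
    have e1 : ∀ i j, (∑ φ, ∑ x, (R x i j - low φ (fun x => R x i j) x) ^ 2) * (N : ℝ) ^ (t + 1)
        ≤ 2 ^ m * ((K * m : ℕ) : ℝ) ^ (t + 1) * (N : ℝ) ^ m * ∑ x, R x i j ^ 2 := fun i j =>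
      hhigh _ (hdegR i j)
    have e2 := sum_le_sum fun i (_ : i ∈ (univ : Finset (Fin r))) =>
      sum_le_sum fun j (_ : j ∈ (univ : Finset (Fin r))) => e1 i j
    simp only [← sum_mul, ← mul_sum] at e2
    have swap : ∀ g : Fin r → Fin r → (Fin m × Fin N → Bool) → ℝ,
        ∑ i, ∑ j, ∑ x, g i j x = ∑ x, ∑ i, ∑ j, g i j x := by
      intro g
      calc ∑ i, ∑ j, ∑ x, g i j x = ∑ i, ∑ x, ∑ j, g i j x := sum_congr rfl fun i _ => sum_comm
        _ = ∑ x, ∑ i, ∑ j, g i j x := sum_comm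
    have swap4 : ∀ g : Fin r → Fin r → (Fin m → Fin N) → (Fin m × Fin N → Bool) → ℝ,
        ∑ i, ∑ j, ∑ φ, ∑ x, g i j φ x = ∑ φ, ∑ x, ∑ i, ∑ j, g i j φ x := by
      intro g
      calc ∑ i, ∑ j, ∑ φ, ∑ x, g i j φ x = ∑ i, ∑ φ, ∑ j, ∑ x, g i j φ x :=
            sum_congr rfl fun i _ => sum_comm
        _ = ∑ φ, ∑ i, ∑ j, ∑ x, g i j φ x := sum_comm
        _ = ∑ φ, ∑ x, ∑ i, ∑ j, g i j φ x := sum_congr rfl fun φ _ => swap _
    rw [swap, swap4, hrho] at e2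
    exact e2
  -- conclusion
  set ρ := a (2 * K) with hρdef
  set Z := ∑ φ, ∑ x, ∑ i, ∑ j, (R x i j - low φ (fun x => R x i j) x) ^ 2 with hZ
  set Y := ∑ φ, ∑ x, (P φ * (R x * (R x)ᵀ)).trace with hY
  set W := ∑ φ, ∑ x, D (sel φ x) * (P φ * (R x * (R x)ᵀ)).trace with hW
  rw [hLR2] at hLR
  have h20 : W ≤ -(ε / 2 * ρ * nF) := by
    have h21 : nF * (1 / nF * W) ≤ nF * -(ε / 2 * ρ) := mul_le_mul_of_nonneg_left hLR hnF0.le
    have h22 : nF * (1 / nF * W) = W := by field_simp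
    rw [h22] at h21
    linarith
  set c₃ : ℝ := 2 * s + 1 + 1 / s with hc₃
  have hc₃0 : 0 < c₃ := by positivity
  have h23 : ε / 2 * ρ * nF ≤ D₀ * (2 * s * Y + c₃ * ((r : ℝ) ^ 4 * Z)) := by linarith
  have h24 : D₀ * (2 * s * Y) ≤ ε / 4 * ρ * nF := by
    have h25 : D₀ * (2 * s * Y) ≤ D₀ * (2 * s * (nF * ρ)) := by
      apply mul_le_mul_of_nonneg_left _ hD₀.le
      exact mul_le_mul_of_nonneg_left hS1 (by positivity)
    have h26 : D₀ * (2 * s * (nF * ρ)) = ε / 4 * ρ * nF := by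
      rw [hs]; field_simp; ring
    linarith
  have h27 : ε / 4 * ρ * nF ≤ D₀ * c₃ * ((r : ℝ) ^ 4 * Z) := by
    have : D₀ * (2 * s * Y + c₃ * ((r : ℝ) ^ 4 * Z))
        = D₀ * (2 * s * Y) + D₀ * c₃ * ((r : ℝ) ^ 4 * Z) := by ring
    rw [this] at h23
    have e : ε / 2 * ρ * nF = ε / 4 * ρ * nF + ε / 4 * ρ * nF := by ring
    linarith
  have hNt : (0 : ℝ) < (N : ℝ) ^ (t + 1) := by
    have : (0 : ℝ) < N := by exact_mod_cast hN
    positivity
  have h28 : ε / 4 * ρ * nF * (N : ℝ) ^ (t + 1)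
      ≤ D₀ * c₃ * ((r : ℝ) ^ 4 * (2 ^ m * ((K * m : ℕ) : ℝ) ^ (t + 1) * nF * ρ)) := by
    calc ε / 4 * ρ * nF * (N : ℝ) ^ (t + 1) ≤ D₀ * c₃ * ((r : ℝ) ^ 4 * Z) * (N : ℝ) ^ (t + 1) :=
          mul_le_mul_of_nonneg_right h27 hNt.le
      _ = D₀ * c₃ * ((r : ℝ) ^ 4 * (Z * (N : ℝ) ^ (t + 1))) := by ring
      _ ≤ _ := by
          rw [hnFN]
          apply mul_le_mul_of_nonneg_left _ (by positivity)
          exact mul_le_mul_of_nonneg_left hS2 (by positivity)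
  have h29 : (ρ * nF) * (ε / 4 * (N : ℝ) ^ (t + 1))
      ≤ (ρ * nF) * (D₀ * c₃ * ((r : ℝ) ^ 4 * (2 ^ m * ((K * m : ℕ) : ℝ) ^ (t + 1)))) := by
    calc (ρ * nF) * (ε / 4 * (N : ℝ) ^ (t + 1)) = ε / 4 * ρ * nF * (N : ℝ) ^ (t + 1) := by ring
      _ ≤ _ := h28
      _ = _ := by ring
  exact le_of_mul_le_mul_left h29 (by positivity)

/-- LRS: the matrix theorem -/
theorem lrs (fo : specFO) (dg : specDG) (po : specPO) (re : specRE) : specLRS := by
  classical
  intro m t f D hf hps hneg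
  set D₀ : ℝ := (∑ z, |D z|) + 1 with hD₀def
  have hDle : ∀ z, |D z| ≤ D₀ := fun z => by
    have := single_le_sum (f := fun z => |D z|) (fun z _ => abs_nonneg _) (mem_univ z)
    linarith
  have hD₀ : 0 < D₀ := by
    have : 0 ≤ ∑ z, |D z| := sum_nonneg fun _ _ => abs_nonneg _
    linarith
  set b : ℝ := (∑ z, f z) + 1 with hbdef
  have hfb : ∀ z, f z + 1 ≤ b := fun z => by
    have := single_le_sum (f := f) (fun z _ => hf z) (mem_univ z)
    linarith
  have hb : 0 < b := by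
    have : 0 ≤ ∑ z, f z := sum_nonneg fun z _ => hf z
    linarith
  set g : ℝ := -(∑ z, D z * f z) / 2 ^ m with hg
  have hg0 : 0 < g := div_pos (by linarith) (by positivity)
  set ε : ℝ := g / (4 * b) with hε
  have hε0 : 0 < ε := by positivity
  set c₂ : ℝ := g / (4 * D₀ * b) with hc₂
  have hc₂0 : 0 < c₂ := by positivity
  obtain ⟨C, hC, hKex⟩ := exists_K (θ₁ := D₀ + ε) (θ₂ := D₀ + ε / 2) (by positivity)
    (by linarith) hc₂0
  set C₃ : ℝ := D₀ * (2 * (ε / (8 * D₀)) + 1 + 1 / (ε / (8 * D₀))) with hC₃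
  have hC₃0 : 0 < C₃ := by positivity
  refine ⟨min 1 (g / (2 * D₀)), ε / 4 / (C₃ * (2 ^ m * (((m : ℝ) + 1) * C) ^ (t + 1))),
    by positivity, by positivity, fun N r hN hr P Q hP hQ hPQ => ?_⟩
  have : Nonempty (Fin m → Fin N) := ⟨fun _ => ⟨0, by omega⟩⟩
  set e₀ : ℝ := min 1 (g / (2 * D₀)) with he₀
  have he1 : e₀ ≤ 1 := min_le_left _ _
  have he2 : D₀ * e₀ ≤ g / 2 := by
    have : e₀ ≤ g / (2 * D₀) := min_le_right _ _
    calc D₀ * e₀ ≤ D₀ * (g / (2 * D₀)) := mul_le_mul_of_nonneg_left this hD₀.le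
      _ = g / 2 := by field_simp
  obtain ⟨P', Q', hP', hQ', hPQ', hPr, hPs, hQr, hQs⟩ := re (Fin m → Fin N)
    (Fin m × Fin N → Bool) r hr P Q b hb hP hQ (fun φ x => by
      have h1 := (abs_le.mp (hPQ φ x)).2
      have h2 := hfb (sel φ x)
      linarith)
  set nF : ℝ := (Fintype.card (Fin m → Fin N) : ℝ) with hnF
  have hnF0 : 0 < nF := Nat.cast_pos.mpr Fintype.card_pos
  set nX : ℝ := (Fintype.card (Fin m × Fin N → Bool) : ℝ) with hnX
  have hnX0 : 0 < nX := Nat.cast_pos.mpr Fintype.card_pos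
  set T : ℝ := ∑ x, (Q' x).trace with hT
  -- the expectation
  have hexp : ∑ φ, ∑ x, D (sel φ x) * (P' φ * Q' x).trace ≤ -(g / 2 * (nF * nX)) := by
    have h1 : ∀ φ, ∑ x, D (sel φ x) * (P' φ * Q' x).trace ≤ -(g / 2 * nX) := by
      intro φ
      have h2 : ∀ x, D (sel φ x) * (P' φ * Q' x).trace ≤ D (sel φ x) * f (sel φ x) + D₀ * e₀ := by
        intro x
        rw [hPQ']
        have h3 : D (sel φ x) * ((P φ * Q x).trace - f (sel φ x)) ≤ D₀ * e₀ := by
          refine (le_abs_self _).trans ?_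
          rw [abs_mul]
          exact mul_le_mul (hDle _) (hPQ φ x) (abs_nonneg _) hD₀.le
        linarith
      refine (sum_le_sum fun x _ => h2 x).trans ?_
      rw [sum_add_distrib, sum_const, card_univ, nsmul_eq_mul]
      have h4 := sum_sel φ fun z => D z * f z
      have h5 : ∑ x, D (sel φ x) * f (sel φ x) = -(g * nX) := by
        have h6 : (2 : ℝ) ^ m * ∑ x, D (sel φ x) * f (sel φ x) = 2 ^ m * -(g * nX) := by
          rw [h4, hg, ← hnX]
          field_simp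
        exact mul_left_cancel₀ (by positivity) h6
      rw [h5]
      have h7 := mul_le_mul_of_nonneg_left he2 hnX0.le
      change -(g * nX) + nX * (D₀ * e₀) ≤ _
      linarith
    refine (sum_le_sum fun φ _ => h1 φ).trans ?_
    rw [sum_const, card_univ, nsmul_eq_mul]
    change nF * -(g / 2 * nX) ≤ _
    linarith
  -- bounds for the total trace
  have hTup : T ≤ 2 * b * nX := hQs
  have hTlow : g / 2 * nX ≤ D₀ * T := by
    have h1 : -(D₀ * (nF * T)) ≤ ∑ φ, ∑ x, D (sel φ x) * (P' φ * Q' x).trace := by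
      have h2 : ∀ φ x, -(D₀ * (P' φ * Q' x).trace) ≤ D (sel φ x) * (P' φ * Q' x).trace := by
        intro φ x
        have h3 := trace_mul_nonneg (hP' φ) (hQ' x)
        have h4 := (abs_le.mp (hDle (sel φ x))).1
        have := mul_le_mul_of_nonneg_right h4 h3
        linarith
      have h5 := sum_le_sum fun φ (_ : φ ∈ (univ : Finset (Fin m → Fin N))) =>
        sum_le_sum fun x (_ : x ∈ (univ : Finset (Fin m × Fin N → Bool))) => h2 φ x
      simp only [sum_neg_distrib, ← mul_sum] at h5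
      refine le_trans ?_ h5
      have h6 : ∑ φ, ∑ x, (P' φ * Q' x).trace ≤ nF * T := by
        rw [sum_comm]
        have h7 : ∀ x, ∑ φ, (P' φ * Q' x).trace ≤ nF * (Q' x).trace := by
          intro x
          rw [← trace_sum, ← Matrix.sum_mul]
          exact trace_mul_le hPs (hQ' x)
        refine (sum_le_sum fun x _ => h7 x).trans ?_
        rw [← mul_sum]
      have := mul_le_mul_of_nonneg_left h6 hD₀.le
      linarith
    have h8 : nF * (g / 2 * nX) ≤ nF * (D₀ * T) := by linarith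
    exact le_of_mul_le_mul_left h8 hnF0
  have hT0 : 0 < T := by
    have h1 : 0 < g / 2 * nX := by positivity
    have h2 : 0 < D₀ * T := h1.trans_le hTlow
    exact (mul_pos_iff_of_pos_left hD₀).mp h2
  have hTc : 2 * b * c₂ * nX ≤ T := by
    have h1 : 2 * b * c₂ * nX = g / 2 * nX / D₀ := by rw [hc₂]; field_simp; ring
    rw [h1, div_le_iff₀ hD₀]
    linarith
  have hPQ'' : ∑ φ, ∑ x, D (sel φ x) * (P' φ * Q' x).trace ≤ -(ε * (nF * T)) := by
    refine hexp.trans ?_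
    have h1 : ε * (nF * T) ≤ ε * (nF * (2 * b * nX)) := by
      apply mul_le_mul_of_nonneg_left _ hε0.le
      exact mul_le_mul_of_nonneg_left hTup hnF0.le
    have h2 : ε * (nF * (2 * b * nX)) = g / 2 * (nF * nX) := by rw [hε]; field_simp; ring
    linarith
  obtain ⟨K, hK1, hK2⟩ := hKex r hr
  have hfin := core fo dg po hN D hps hD₀ hε0 hb hDle P' Q' hP' hQ' hr hPr hPs hQr hT0 hTc hPQ'' hK2
  rw [← hC₃] at hfin
  have hr' : (1 : ℝ) ≤ r := by exact_mod_cast hr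
  have hlog : 0 ≤ Real.log r := Real.log_nonneg hr'
  have hKm : ((K * m : ℕ) : ℝ) ^ (t + 1)
      ≤ (((m : ℝ) + 1) * C) ^ (t + 1) * (1 + Real.log r) ^ (t + 1) := by
    rw [← mul_pow]
    apply pow_le_pow_left₀ (by positivity)
    push_cast
    calc (K : ℝ) * m ≤ (C * (1 + Real.log r)) * (m + 1) := by
          apply mul_le_mul hK1 (by linarith) (by positivity) (by positivity)
      _ = _ := by ring
  have h30 : ε / 4 * (N : ℝ) ^ (t + 1) ≤ (C₃ * (2 ^ m * (((m : ℝ) + 1) * C) ^ (t + 1)))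
      * ((r : ℝ) ^ 4 * (1 + Real.log r) ^ (t + 1)) := by
    refine hfin.trans ?_
    calc C₃ * ((r : ℝ) ^ 4 * (2 ^ m * ((K * m : ℕ) : ℝ) ^ (t + 1)))
        ≤ C₃ * ((r : ℝ) ^ 4 * (2 ^ m * ((((m : ℝ) + 1) * C) ^ (t + 1)
          * (1 + Real.log r) ^ (t + 1)))) := by gcongr
      _ = _ := by ring
  rw [div_mul_eq_mul_div, div_le_iff₀ (by positivity)]
  linarith

end Pool.Agent.Helper68.SDP
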