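import Pool.Agent.Helper68.SDP.Costs
import Pool.Agent.Helper68.SDP.Solve
import Pool.Agent.Helper68.SDP.LRSMain
import Pool.Agent.Helper61.SDP.DU
import Pool.Agent.Helper61.SDP.FO
import Pool.Agent.Helper55.SDP.RE
import Pool.Agent.Helper37.SDP.KN
import Pool.Agent.Helper36.SDP.PO
import Pool.Agent.Helper36.SDP.DG

set_option autoImplicit false

/-!
# The lower bound for semidefinite formulations: one gadget
-/

namespace Pool.Agent.Helper68.SDP

open Pool.Agent.Helper68.LP (Gadget tlen InSquare)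
open Matrix Finset

theorem du : specDU := Pool.Agent.Helper61.SDPDU.du

theorem lrs' : specLRS :=
  lrs Pool.Agent.Helper61.SDPFO.fo Pool.Agent.Helper36.SDP.dg Pool.Agent.Helper36.SDP.po
    Pool.Agent.Helper55.SDP.re

/-- block diagonal matrix -/
def blk {r : ℕ} (U : Matrix (Fin r) (Fin r) ℝ) (u : ℝ) : Matrix (Fin (r + 1)) (Fin (r + 1)) ℝ :=
  (Matrix.fromBlocks U 0 0 (u • (1 : Matrix (Fin 1) (Fin 1) ℝ))).submatrix
    finSumFinEquiv.symm finSumFinEquiv.symm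

theorem blk_psd {r : ℕ} {U : Matrix (Fin r) (Fin r) ℝ} (hU : U.PosSemidef) {u : ℝ} (hu : 0 ≤ u) :
    (blk U u).PosSemidef := by
  unfold blk
  apply PosSemidef.submatrix
  obtain ⟨V, rfl⟩ := psd_factor hU
  have e : Matrix.fromBlocks (Vᵀ * V) 0 0 (u • (1 : Matrix (Fin 1) (Fin 1) ℝ))
      = (Matrix.fromBlocks V 0 0 (Real.sqrt u • (1 : Matrix (Fin 1) (Fin 1) ℝ)))ᴴ
        * Matrix.fromBlocks V 0 0 (Real.sqrt u • (1 : Matrix (Fin 1) (Fin 1) ℝ)) := by
    rw [fromBlocks_conjTranspose, fromBlocks_multiply]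
    congr 1
    · simp [conjTranspose_eq_transpose_of_trivial]
    · simp
    · simp
    · ext i j
      fin_cases i; fin_cases j
      simp [Real.mul_self_sqrt hu]
  rw [e]
  exact posSemidef_conjTranspose_mul_self _

theorem trace_submatrix {m n : Type} [Fintype m] [Fintype n] (A : Matrix m m ℝ) (e : n ≃ m) :
    (A.submatrix e e).trace = A.trace := by
  unfold trace
  exact Equiv.sum_comp e fun i => A.diag i

theorem blk_trace {r : ℕ} (U W : Matrix (Fin r) (Fin r) ℝ) (u w : ℝ) :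
    (blk U u * blk W w).trace = (U * W).trace + u * w := by
  unfold blk
  rw [submatrix_mul_equiv, trace_submatrix, fromBlocks_multiply]
  unfold trace
  rw [Fintype.sum_sum_type]
  simp
  ring

/-- the indices of a product -/
def bset {m N : ℕ} (φ : Fin m → Fin N) : Fin (m * N) → Bool := fun i =>
  decide ((finProdFinEquiv.symm i).2 = φ (finProdFinEquiv.symm i).1)

theorem sum_bset {m N : ℕ} (φ : Fin m → Fin N) (g : Fin m × Fin N → ℤ) :
    (∑ i, if bset φ i = true then g (finProdFinEquiv.symm i) else 0) = ∑ p, g (p, φ p) := by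
  unfold bset
  rw [← Equiv.sum_comp finProdFinEquiv]
  simp only [Equiv.symm_apply_apply, decide_eq_true_eq]
  rw [Fintype.sum_prod_type]
  refine sum_congr rfl fun p _ => ?_
  rw [sum_eq_single (φ p)]
  · simp
  · intro q _ hq
    rw [if_neg hq]
  · intro h; exact absurd (mem_univ _) h

theorem size_bset {m N : ℕ} (φ : Fin m → Fin N) : Q.size (bset φ) = m := by
  have h1 := sum_bset φ fun _ => 1
  have h2 := Q.sum_size (bset φ) 1
  rw [h1] at h2
  simp only [sum_const, card_univ, Fintype.card_fin, nsmul_eq_mul, mul_one] at h2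
  exact_mod_cast h2.symm

/-- the tour of a point of the cube -/
def aset {m N : ℕ} (x : Fin m × Fin N → Bool) : Fin (m * N) → Bool := fun i =>
  x (finProdFinEquiv.symm i)

theorem cap_eq {m N : ℕ} (x : Fin m × Fin N → Bool) (φ : Fin m → Fin N) :
    Gadget.cap (aset x) (bset φ) = wt (sel φ x) := by
  have h1 := sum_bset φ fun p => if x p = true then 1 else 0
  unfold Gadget.cap
  have e : ∀ i, (if aset x i = true ∧ bset φ i = true then (1 : ℤ) else 0)
      = if bset φ i = true then (if x (finProdFinEquiv.symm i) = true then 1 else 0) else 0 := by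
    intro i
    unfold aset
    by_cases h' : bset φ i = true <;> simp [h']
  simp only [e]
  rw [h1]
  unfold wt sel
  rw [sum_boole]

/-- the factorization given by a semidefinite formulation -/
theorem gc_fac {α β : Type} [Fintype α] [Nonempty α] {V : α → β → ℤ} (G : GC α β V) {Nb M : ℕ}
    (hPar : G.Params Nb M) {d r : ℕ} {Q : Set (Fin d → ℝ)} (hQ : IsSDP Q r) {δ : ℝ}
    (hδ : δ ≤ 1 / 100) (hsol : Solves Q G.n (2 * (M * Nb)) δ) :
    ∃ W : α → Matrix (Fin r) (Fin r) ℝ, (∀ a, (W a).PosSemidef) ∧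
      ∀ b, ∃ (U : Matrix (Fin r) (Fin r) ℝ) (u₀ : ℝ), U.PosSemidef ∧ 0 ≤ u₀ ∧
        ∀ a, |(u₀ + (U * W a).trace) - V a b| ≤ 1 / 20 := by
  obtain ⟨B₀, B, s, E, e, hB₀, hB, rfl⟩ := hQ
  obtain ⟨xs, hxs, hP⟩ := hsol
  refine ⟨fun a => B₀ + ∑ j, xs (G.tour a) j • B j, fun a => (hxs _).1, fun b => ?_⟩
  obtain ⟨cc, cc₀, hval, hopt⟩ := hP (G.inst M b) (hPar.inj _) (hPar.square _)
  obtain ⟨U, u₀, hU, hu₀, hUx⟩ := du d r s B₀ B E e hB₀ hB α
    (fun a => xs (G.tour a)) (fun a => (hxs _).1) (fun a k => (hxs _).2 k) cc cc₀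
    ((G.n : ℝ) * M + G.O b - δ) (fun y hy1 hy2 => by
      obtain ⟨σ, hσ⟩ := hopt y ⟨hy1, hy2⟩
      have h1 := hPar.low b σ
      linarith) (1 / 100) (by norm_num)
  refine ⟨U, u₀, hU, hu₀, fun a => ?_⟩
  have h1 := abs_le.mp (hUx a)
  have h2 := abs_le.mp (hval (G.tour a))
  obtain ⟨h3, h4⟩ := hPar.mid a b
  rw [abs_le]
  constructor <;> linarith [h1.1, h1.2, h2.1, h2.2]

/-- the lower bound for one gadget -/
theorem one_gadget (t : ℕ) (ht : 1 ≤ t) : ∃ (c : ℕ) (c₀ : ℝ), 0 < c₀ ∧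
    ∀ (N : ℕ), 1 ≤ N → ∀ (G₀ : Gadget ((4 * t + 1) * N)) (Nb M : ℕ),
      (Q.toGC G₀ (2 * t) c (4 * t + 1)).Params Nb M →
      ∀ (d r : ℕ) (Q : Set (Fin d → ℝ)), IsSDP Q r → ∀ δ : ℝ, δ ≤ 1 / 100 →
        Solves Q G₀.n (2 * (M * Nb)) δ →
        c₀ * (N : ℝ) ^ (t + 1)
          ≤ ((r : ℝ) + 1) ^ 4 * (1 + Real.log ((r : ℝ) + 1)) ^ (t + 1) := by
  classical
  obtain ⟨D, hps, hneg⟩ := Pool.Agent.Helper37.SDP.kn t ht
  set f : (Fin (4 * t + 1) → Bool) → ℝ := fun z =>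
    ((wt z : ℝ) - 2 * t) * ((wt z : ℝ) - 2 * t - 1) with hf
  have hf0 : ∀ z, 0 ≤ f z := by
    intro z
    have := Q.quad_nonneg (wt z : ℤ) (2 * t : ℤ)
    have h2 : (0 : ℝ) ≤ (((wt z : ℤ) - (2 * t : ℤ)) * ((wt z : ℤ) - (2 * t : ℤ) - 1) : ℤ) := by
      exact_mod_cast this
    push_cast at h2
    exact h2
  obtain ⟨e₀, c₀, he₀, hc₀, hmain⟩ := lrs' (4 * t + 1) t f D hf0 hps hneg
  refine ⟨⌈1 / e₀⌉₊ + 1, c₀, hc₀, ?_⟩
  set c : ℕ := ⌈1 / e₀⌉₊ + 1 with hc
  have hce : 1 ≤ c * e₀ := by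
    have h1 : 1 / e₀ ≤ ⌈1 / e₀⌉₊ := Nat.le_ceil _
    rw [div_le_iff₀ he₀] at h1
    rw [hc]; push_cast
    linarith
  have hc1 : (0 : ℝ) < c := by rw [hc]; positivity
  intro N hN G₀ Nb M hPar d r Q hQ δ hδ hsol
  obtain ⟨W, hW, hfac⟩ := gc_fac (SDP.Q.toGC G₀ (2 * t) c (4 * t + 1)) hPar hQ hδ hsol
  choose U u₀ hU hu₀ hUx using hfac
  have hUx' : ∀ (φ : Fin (4 * t + 1) → Fin N) (x : Fin (4 * t + 1) × Fin N → Bool),
      |(u₀ ⟨bset φ, size_bset φ⟩ + (U ⟨bset φ, size_bset φ⟩ * W (aset x)).trace)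
        - c * f (sel φ x)| ≤ 1 / 20 := by
    intro φ x
    have h1 := hUx ⟨bset φ, size_bset φ⟩ (aset x)
    have h5 : (((c * ((Gadget.cap (aset x) (bset φ) - (2 * t : ℕ)) *
        (Gadget.cap (aset x) (bset φ) - (2 * t : ℕ) - 1)) : ℤ)) : ℝ) = c * f (sel φ x) := by
      rw [cap_eq x φ, hf]
      push_cast
      ring
    rw [← h5]
    exact h1
  have hfin := hmain N (r + 1) hN (by omega)
    (fun φ => (1 / (c : ℝ)) • blk (U ⟨bset φ, size_bset φ⟩) (u₀ ⟨bset φ, size_bset φ⟩))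
    (fun x => blk (W (aset x)) 1)
    (fun φ => (blk_psd (hU _) (hu₀ _)).smul (by positivity))
    (fun x => blk_psd (hW _) zero_le_one)
    (fun φ x => by
      rw [smul_mul_assoc, trace_smul, smul_eq_mul, blk_trace, mul_one]
      have h1 := hUx' φ x
      set Z := (U ⟨bset φ, size_bset φ⟩ * W (aset x)).trace
      set z := u₀ ⟨bset φ, size_bset φ⟩
      have h2 : 1 / (c : ℝ) * (Z + z) - f (sel φ x)
          = 1 / (c : ℝ) * ((z + Z) - c * f (sel φ x)) := by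
        field_simp
        ring
      rw [h2, abs_mul, abs_of_pos (by positivity : 0 < 1 / (c : ℝ))]
      calc 1 / (c : ℝ) * |(z + Z) - c * f (sel φ x)| ≤ 1 / (c : ℝ) * (1 / 20) :=
            mul_le_mul_of_nonneg_left h1 (by positivity)
        _ ≤ e₀ := by
            rw [div_mul_eq_mul_div, div_le_iff₀ hc1]
            linarith)
  push_cast at hfin
  exact hfin

end Pool.Agent.Helper68.SDP
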